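import Mathlib

/-!
The simply connected nilpotent Lie group `N = R x R^5` of class three, the product being the
semidirect one in which `s` acts on `R^5` by `exp (s J)`, with `J` nilpotent having two Jordan
blocks, one of size three and one of size two.
-/

open scoped Manifold ContDiff ENNReal Topology
open Set MeasureTheory Manifold Bundle

noncomputable section

namespace Pool.Agent.H463R3.NilGroup

/-- The model vector space `R^6`. -/
abbrev E : Type := Fin 6 → ℝ

/-- The linear map `exp (s J)` on `R^6`. -/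
def A (s : ℝ) (v : E) : E :=
  ![v 0, v 1, v 2 + s * v 1, v 3 + s * v 2 + s ^ 2 / 2 * v 1, v 4, v 5 + s * v 4]

lemma ext6E {x y : E} (h0 : x 0 = y 0) (h1 : x 1 = y 1) (h2 : x 2 = y 2) (h3 : x 3 = y 3)
    (h4 : x 4 = y 4) (h5 : x 5 = y 5) : x = y := by
  funext i
  fin_cases i
  · exact h0
  · exact h1
  · exact h2
  · exact h3
  · exact h4
  · exact h5

lemma m0 (a b c d e f : ℝ) : (![a, b, c, d, e, f] : E) 0 = a := rfl
lemma m1 (a b c d e f : ℝ) : (![a, b, c, d, e, f] : E) 1 = b := rfl
lemma m2 (a b c d e f : ℝ) : (![a, b, c, d, e, f] : E) 2 = c := rfl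
lemma m3 (a b c d e f : ℝ) : (![a, b, c, d, e, f] : E) 3 = d := rfl
lemma m4 (a b c d e f : ℝ) : (![a, b, c, d, e, f] : E) 4 = e := rfl
lemma m5 (a b c d e f : ℝ) : (![a, b, c, d, e, f] : E) 5 = f := rfl

lemma A0 (s : ℝ) (v : E) : A s v 0 = v 0 := rfl
lemma A1 (s : ℝ) (v : E) : A s v 1 = v 1 := rfl
lemma A2 (s : ℝ) (v : E) : A s v 2 = v 2 + s * v 1 := rfl
lemma A3 (s : ℝ) (v : E) : A s v 3 = v 3 + s * v 2 + s ^ 2 / 2 * v 1 := rfl
lemma A4 (s : ℝ) (v : E) : A s v 4 = v 4 := rfl
lemma A5 (s : ℝ) (v : E) : A s v 5 = v 5 + s * v 4 := rfl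

lemma A_add (s : ℝ) (v w : E) : A s (v + w) = A s v + A s w := by
  apply ext6E <;> simp only [Pi.add_apply, A0, A1, A2, A3, A4, A5] <;> ring

lemma A_smul (s c : ℝ) (v : E) : A s (c • v) = c • A s v := by
  apply ext6E <;> simp only [Pi.smul_apply, smul_eq_mul, A0, A1, A2, A3, A4, A5] <;> ring

lemma A_A (s t : ℝ) (v : E) : A s (A t v) = A (s + t) v := by
  apply ext6E <;> simp only [A0, A1, A2, A3, A4, A5] <;> ring

lemma A_zero (v : E) : A 0 v = v := by
  apply ext6E <;> simp only [A0, A1, A2, A3, A4, A5] <;> ring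

/-- The underlying type of the group. -/
def N : Type := E

namespace N

instance : TopologicalSpace N := inferInstanceAs (TopologicalSpace E)
instance : T2Space N := inferInstanceAs (T2Space E)
instance : ChartedSpace E N := chartedSpaceSelf E
instance : IsManifold 𝓘(ℝ, E) ω N := inferInstanceAs (IsManifold 𝓘(ℝ, E) ω E)
instance : IsManifold 𝓘(ℝ, E) ∞ N := inferInstanceAs (IsManifold 𝓘(ℝ, E) ∞ E)

/-- the element of the group with given coordinates -/
def of (v : E) : N := v
/-- the coordinates of an element of the group -/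
def co (x : N) : E := x

lemma ext' {x y : N} (h : x.co = y.co) : x = y := h

instance : Mul N := ⟨fun x y => of (x.co + A (x.co 0) y.co)⟩
instance : One N := ⟨of 0⟩
instance : Inv N := ⟨fun x => of (- A (- x.co 0) x.co)⟩

@[simp] lemma co_of (v : E) : (of v).co = v := rfl
@[simp] lemma of_co (x : N) : of x.co = x := rfl
lemma co_mul (x y : N) : (x * y).co = x.co + A (x.co 0) y.co := rfl
lemma co_one : (1 : N).co = 0 := rfl
lemma co_inv (x : N) : (x⁻¹).co = - A (- x.co 0) x.co := rfl

instance : Group N := Group.ofLeftAxioms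
  (by
    intro x y z
    apply ext'
    simp only [co_mul, Pi.add_apply, A0]
    rw [A_add, A_A, add_assoc])
  (by
    intro x
    apply ext'
    simp only [co_mul, co_one, Pi.zero_apply, A_zero, zero_add])
  (by
    intro x
    apply ext'
    simp only [co_mul, co_one, co_inv, Pi.neg_apply, A0]
    simp)

/-- `exp (s J)` as a continuous linear map -/
def AL (s : ℝ) : E →L[ℝ] E :=
  LinearMap.toContinuousLinearMap
    { toFun := A s
      map_add' := A_add s
      map_smul' := A_smul s }

@[simp] lemma AL_apply (s : ℝ) (v : E) : AL s v = A s v := rfl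

lemma contDiff_A' {F : Type*} [NormedAddCommGroup F] [NormedSpace ℝ F] {n : ℕ∞ω}
    (s : F → ℝ) (v : F → E) (hs : ContDiff ℝ n s) (hv : ContDiff ℝ n v) :
    ContDiff ℝ n (fun p => A (s p) (v p)) := by
  have hv' : ∀ i, ContDiff ℝ n (fun p => v p i) := fun i => contDiff_pi.1 hv i
  have h0 := hv' 0
  have h1 := hv' 1
  have h2 := hv' 2
  have h3 := hv' 3
  have h4 := hv' 4
  have h5 := hv' 5
  rw [contDiff_pi]
  intro i
  fin_cases i
  · exact h0
  · exact h1
  · exact h2.add (hs.mul h1)
  · exact (h3.add (hs.mul h2)).add (((hs.pow 2).div_const 2).mul h1)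
  · exact h4
  · exact h5.add (hs.mul h4)

lemma contDiff_mul' : ContDiff ℝ ω (fun p : E × E => p.1 + A (p.1 0) p.2) := by
  apply contDiff_fst.add
  apply contDiff_A'
  · exact (contDiff_pi.1 contDiff_fst 0)
  · exact contDiff_snd

lemma contDiff_inv' : ContDiff ℝ ω (fun p : E => - A (- p 0) p) := by
  apply ContDiff.neg
  apply contDiff_A'
  · exact (contDiff_pi.1 contDiff_id 0).neg
  · exact contDiff_id

lemma contMDiff_mul_aux :
    ContMDiff (𝓘(ℝ, E).prod 𝓘(ℝ, E)) 𝓘(ℝ, E) ω (fun p : E × E => p.1 + A (p.1 0) p.2) := by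
  rw [← modelWithCornersSelf_prod, chartedSpaceSelf_prod]
  exact contDiff_mul'.contMDiff

instance : LieGroup 𝓘(ℝ, E) ω N where
  contMDiff_mul := contMDiff_mul_aux
  contMDiff_inv := contDiff_inv'.contMDiff

instance : LieGroup 𝓘(ℝ, E) ∞ N := LieGroup.of_le (n := ω) (by simp)

end N

end Pool.Agent.H463R3.NilGroup
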