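import Mathlib
import Pool.Agent.H463R3.NilGroup

open scoped Manifold ContDiff ENNReal Topology NNReal commutatorElement
open Set

noncomputable section

set_option linter.unusedSimpArgs false

namespace Pool.Agent.H463R3.NilGroup

namespace N

lemma ext6 {x y : N} (h0 : x.co 0 = y.co 0) (h1 : x.co 1 = y.co 1)
    (h2 : x.co 2 = y.co 2) (h3 : x.co 3 = y.co 3)
    (h4 : x.co 4 = y.co 4) (h5 : x.co 5 = y.co 5) : x = y := by
  apply ext'
  exact ext6E h0 h1 h2 h3 h4 h5

lemma co0_mul (x y : N) : (x * y).co 0 = x.co 0 + y.co 0 := rfl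
lemma co1_mul (x y : N) : (x * y).co 1 = x.co 1 + y.co 1 := rfl
lemma co2_mul (x y : N) : (x * y).co 2 = x.co 2 + (y.co 2 + x.co 0 * y.co 1) := rfl
lemma co3_mul (x y : N) : (x * y).co 3 = x.co 3 +
    (y.co 3 + x.co 0 * y.co 2 + x.co 0 ^ 2 / 2 * y.co 1) := rfl
lemma co4_mul (x y : N) : (x * y).co 4 = x.co 4 + y.co 4 := rfl
lemma co5_mul (x y : N) : (x * y).co 5 = x.co 5 +
    (y.co 5 + x.co 0 * y.co 4) := rfl

lemma co0_inv (x : N) : (x⁻¹).co 0 = - x.co 0 := rfl
lemma co1_inv (x : N) : (x⁻¹).co 1 = - x.co 1 := rfl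
lemma co2_inv (x : N) : (x⁻¹).co 2 = - (x.co 2 + (- x.co 0) * x.co 1) := rfl
lemma co3_inv (x : N) : (x⁻¹).co 3 = - (x.co 3 + (- x.co 0) * x.co 2 +
    (- x.co 0) ^ 2 / 2 * x.co 1) := rfl
lemma co4_inv (x : N) : (x⁻¹).co 4 = - x.co 4 := rfl
lemma co5_inv (x : N) : (x⁻¹).co 5 = - (x.co 5 + (- x.co 0) * x.co 4) :=
  rfl

/-- commutation, in coordinates -/
lemma commute_iff (x y : N) : x * y = y * x ↔
    (x.co 0 * y.co 1 = y.co 0 * x.co 1 ∧
      x.co 0 * y.co 2 + x.co 0 ^ 2 / 2 * y.co 1 =
        y.co 0 * x.co 2 + y.co 0 ^ 2 / 2 * x.co 1 ∧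
      x.co 0 * y.co 4 = y.co 0 * x.co 4) := by
  constructor
  · intro h
    have h2 := congrArg (fun z : N => z.co 2) h
    have h3 := congrArg (fun z : N => z.co 3) h
    have h5 := congrArg (fun z : N => z.co 5) h
    simp only [co2_mul, co3_mul, co5_mul] at h2 h3 h5
    refine ⟨by linarith, by linarith, by linarith⟩
  · rintro ⟨h1, h2, h3⟩
    apply ext6
    · simp only [co0_mul]; ring
    · simp only [co1_mul]; ring
    · simp only [co2_mul]; linarith
    · simp only [co3_mul]; linarith
    · simp only [co4_mul]; ring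
    · simp only [co5_mul]; linarith

/-- the centralizer of a noncentral element is commutative -/
lemma centralizer_comm (x : N) (hx : ∃ z : N, x * z ≠ z * x) (y y' : N) (h : x * y = y * x)
    (h' : x * y' = y' * x) : y * y' = y' * y := by
  rw [commute_iff] at h h' ⊢
  obtain ⟨h1, h2, h3⟩ := h
  obtain ⟨h1', h2', h3'⟩ := h'
  by_cases hs : x.co 0 = 0
  · have key : ∀ t : ℝ, x.co 0 * 0 = 0 → 0 = t * x.co 1 →
        0 = t * x.co 2 + t ^ 2 / 2 * x.co 1 → 0 = t * x.co 4 → t = 0 := by
      intro t _ e1 e2 e3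
      by_contra ht
      have f1 : x.co 1 = 0 := by
        rcases mul_eq_zero.1 e1.symm with h | h
        · exact absurd h ht
        · exact h
      have f3 : x.co 4 = 0 := by
        rcases mul_eq_zero.1 e3.symm with h | h
        · exact absurd h ht
        · exact h
      have f2 : x.co 2 = 0 := by
        rw [f1, mul_zero, add_zero] at e2
        rcases mul_eq_zero.1 e2.symm with h | h
        · exact absurd h ht
        · exact h
      obtain ⟨z, hz⟩ := hx
      apply hz
      rw [commute_iff, hs, f1, f2, f3]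
      simp
    rw [hs] at h1 h2 h3 h1' h2' h3'
    have t0 : y.co 0 = 0 := key _ (mul_zero _) (by linarith) (by nlinarith) (by linarith)
    have t0' : y'.co 0 = 0 := key _ (mul_zero _) (by linarith) (by nlinarith) (by linarith)
    rw [t0, t0']
    simp
  · refine ⟨?_, ?_, ?_⟩
    · apply mul_left_cancel₀ hs
      linear_combination y.co 0 * h1' - y'.co 0 * h1
    · apply mul_left_cancel₀ hs
      linear_combination y.co 0 * h2' - y'.co 0 * h2 + (y.co 0 ^ 2 / 2) * h1' -
        (y'.co 0 ^ 2 / 2) * h1 - (x.co 0 / 2) * y.co 0 * h1' + (x.co 0 / 2) * y'.co 0 * h1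
    · apply mul_left_cancel₀ hs
      linear_combination y.co 0 * h3' - y'.co 0 * h3

/-- the subgroup of elements with vanishing first, second and fifth coordinates -/
def N2 : Subgroup N where
  carrier := {x | x.co 0 = 0 ∧ x.co 1 = 0 ∧ x.co 4 = 0}
  mul_mem' := by
    rintro x y ⟨h1, h2, h3⟩ ⟨h1', h2', h3'⟩
    refine ⟨?_, ?_, ?_⟩
    · simp [co0_mul, h1, h1']
    · simp [co1_mul, h2, h2']
    · simp [co4_mul, h3, h3']
  one_mem' := ⟨rfl, rfl, rfl⟩
  inv_mem' := by
    rintro x ⟨h1, h2, h3⟩
    refine ⟨?_, ?_, ?_⟩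
    · simp [co0_inv, h1]
    · simp [co1_inv, h2]
    · simp [co4_inv, h3]

/-- the one-parameter subgroup in the direction of the fourth coordinate -/
def N3 : Subgroup N where
  carrier := {x | x.co 0 = 0 ∧ x.co 1 = 0 ∧ x.co 2 = 0 ∧ x.co 4 = 0 ∧
    x.co 5 = 0}
  mul_mem' := by
    rintro x y ⟨h1, h2, h3, h4, h5⟩ ⟨h1', h2', h3', h4', h5'⟩
    refine ⟨?_, ?_, ?_, ?_, ?_⟩
    · simp [co0_mul, h1, h1']
    · simp [co1_mul, h2, h2']
    · simp [co2_mul, h3, h3', h1]
    · simp [co4_mul, h4, h4']
    · simp [co5_mul, h5, h5', h1]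
  one_mem' := ⟨rfl, rfl, rfl, rfl, rfl⟩
  inv_mem' := by
    rintro x ⟨h1, h2, h3, h4, h5⟩
    refine ⟨?_, ?_, ?_, ?_, ?_⟩
    · simp [co0_inv, h1]
    · simp [co1_inv, h2]
    · simp [co2_inv, h1, h3]
    · simp [co4_inv, h4]
    · simp [co5_inv, h1, h5]

lemma lcs1 : (⊤ : Subgroup N).lowerCentralSeries 1 = N2 := by
  rw [Subgroup.lowerCentralSeries_succ, Subgroup.lowerCentralSeries_zero]
  apply le_antisymm
  · rw [Subgroup.commutator_le]
    intro x _ y _
    rw [commutatorElement_def]
    refine ⟨?_, ?_, ?_⟩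
    · simp only [co0_mul, co0_inv]; ring
    · simp only [co1_mul, co1_inv]; ring
    · simp only [co4_mul, co4_inv]; ring
  · rintro x ⟨h1, h2, h3⟩
    have e : x = ⁅(of ![1, 0, 0, 0, 0, 0] : N),
        (of ![0, x.co 2, x.co 3 - x.co 2 / 2, 0, x.co 5, 0] : N)⁆ := by
      rw [commutatorElement_def]
      apply ext6
      · simp only [co0_mul, co0_inv, co_of, m0, m1, m2, m3, m4, m5, h1]; ring
      · simp only [co1_mul, co1_inv, co_of, m0, m1, m2, m3, m4, m5, h2]; ring
      · simp only [co2_mul, co2_inv, co1_mul, co1_inv, co0_mul, co0_inv, co_of, m0, m1, m2, m3, m4, m5]; ring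
      · simp only [co3_mul, co3_inv, co2_mul, co2_inv, co1_mul, co1_inv, co0_mul, co0_inv, co_of, m0, m1, m2, m3, m4, m5]
        ring
      · simp only [co4_mul, co4_inv, co_of, m0, m1, m2, m3, m4, m5, h3]; ring
      · simp only [co5_mul, co5_inv, co4_mul, co4_inv, co0_mul, co0_inv, co_of, m0, m1, m2, m3, m4, m5]
        ring
    rw [e]
    exact Subgroup.commutator_mem_commutator (Subgroup.mem_top _) (Subgroup.mem_top _)

lemma lcs2 : (⊤ : Subgroup N).lowerCentralSeries 2 = N3 := by
  rw [Subgroup.lowerCentralSeries_succ, lcs1]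
  apply le_antisymm
  · rw [Subgroup.commutator_le]
    rintro x ⟨h1, h2, h3⟩ y _
    rw [commutatorElement_def]
    refine ⟨?_, ?_, ?_, ?_, ?_⟩
    · simp only [co0_mul, co0_inv, h1]; ring
    · simp only [co1_mul, co1_inv, h2]; ring
    · simp only [co2_mul, co2_inv, co1_mul, co1_inv, co0_mul, co0_inv, h1, h2]; ring
    · simp only [co4_mul, co4_inv, h3]; ring
    · simp only [co5_mul, co5_inv, co4_mul, co4_inv, co0_mul, co0_inv, h1, h3]; ring
  · rintro x ⟨h1, h2, h3, h4, h5⟩
    have e : x = ⁅(of ![0, 0, - x.co 3, 0, 0, 0] : N), (of ![1, 0, 0, 0, 0, 0] : N)⁆ := by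
      rw [commutatorElement_def]
      apply ext6
      · simp only [co0_mul, co0_inv, co_of, m0, m1, m2, m3, m4, m5, h1]; ring
      · simp only [co1_mul, co1_inv, co_of, m0, m1, m2, m3, m4, m5, h2]; ring
      · simp only [co2_mul, co2_inv, co1_mul, co1_inv, co0_mul, co0_inv, co_of, m0, m1, m2, m3, m4, m5, h3]; ring
      · simp only [co3_mul, co3_inv, co2_mul, co2_inv, co1_mul, co1_inv, co0_mul, co0_inv, co_of, m0, m1, m2, m3, m4, m5]
        ring
      · simp only [co4_mul, co4_inv, co_of, m0, m1, m2, m3, m4, m5, h4]; ring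
      · simp only [co5_mul, co5_inv, co4_mul, co4_inv, co0_mul, co0_inv, co_of, m0, m1, m2, m3, m4, m5, h5]
        ring
    rw [e]
    refine Subgroup.commutator_mem_commutator (?_ : _ ∈ N2) (Subgroup.mem_top _)
    exact ⟨rfl, rfl, rfl⟩

lemma lcs3 : (⊤ : Subgroup N).lowerCentralSeries 3 = ⊥ := by
  rw [Subgroup.lowerCentralSeries_succ, lcs2, eq_bot_iff, Subgroup.commutator_le]
  rintro x ⟨h1, h2, h3, h4, h5⟩ y _
  rw [Subgroup.mem_bot, commutatorElement_eq_one_iff_mul_comm, commute_iff]
  simp [h1, h2, h3, h4]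

lemma nontrivial_N3 : N3 ≠ ⊥ := by
  intro h
  have : (of ![0, 0, 0, 1, 0, 0] : N) ∈ N3 := ⟨rfl, rfl, rfl, rfl, rfl⟩
  rw [h, Subgroup.mem_bot] at this
  have h3 := congrArg (fun z : N => z.co 3) this
  simp [co_one] at h3

instance : Group.IsNilpotent N := by
  rw [Subgroup.nilpotent_iff_lowerCentralSeries]
  exact ⟨3, lcs3⟩

lemma nilpotencyClass_eq : Group.nilpotencyClass N = 3 := by
  apply le_antisymm
  · rw [← Subgroup.lowerCentralSeries_eq_bot_iff_nilpotencyClass_le]
    exact lcs3
  · by_contra h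
    have h2 : Group.nilpotencyClass N ≤ 2 := by omega
    rw [← Subgroup.lowerCentralSeries_eq_bot_iff_nilpotencyClass_le, lcs2] at h2
    exact nontrivial_N3 h2

lemma center_le_commutator : Subgroup.center N ≤ commutator N := by
  intro x hx
  rw [Subgroup.mem_center_iff] at hx
  have ha := (commute_iff _ _).1 (hx (of ![1, 0, 0, 0, 0, 0]))
  have hb := (commute_iff _ _).1 (hx (of ![0, 1, 0, 0, 0, 0]))
  simp only [co_of, m0, m1, m2, m3, m4, m5] at ha hb
  obtain ⟨a1, a2, a3⟩ := ha
  obtain ⟨b1, b2, b3⟩ := hb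
  have : x ∈ (⊤ : Subgroup N).lowerCentralSeries 1 := by
    rw [lcs1]
    exact ⟨by linarith, by linarith, by linarith⟩
  exact this

/-- `N` is not a direct product of two nontrivial groups. -/
theorem indecomposable (H K : Type) [Group H] [Group K] (e : N ≃* H × K) :
    Subsingleton H ∨ Subsingleton K := by
  -- one of the factors is commutative
  by_cases hH : ∀ a b : H, a * b = b * a
  · left
    refine ⟨fun a b => ?_⟩
    suffices h : ∀ a : H, a = 1 by rw [h a, h b]
    intro a
    have hc : e.symm (a, 1) ∈ Subgroup.center N := by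
      rw [Subgroup.mem_center_iff]
      intro g
      apply e.injective
      rw [map_mul, map_mul, MulEquiv.apply_symm_apply]
      exact Prod.ext (hH _ _) (by simp)
    have hc2 := center_le_commutator hc
    have h3 : (a, (1 : K)) ∈ commutator (H × K) := by
      have := Subgroup.mem_map_of_mem (e : N →* H × K) hc2
      rw [commutator_def, Subgroup.map_commutator] at this
      have h4 := Subgroup.commutator_mono (le_top : Subgroup.map (e : N →* H × K) ⊤ ≤ ⊤)
        (le_top : Subgroup.map (e : N →* H × K) ⊤ ≤ ⊤) this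
      rw [commutator_def]
      simpa using h4
    have h5 : a ∈ commutator H := by
      have := Subgroup.mem_map_of_mem (MonoidHom.fst H K) h3
      rw [commutator_def, Subgroup.map_commutator] at this
      have h4 := Subgroup.commutator_mono (le_top : Subgroup.map (MonoidHom.fst H K) ⊤ ≤ ⊤)
        (le_top : Subgroup.map (MonoidHom.fst H K) ⊤ ≤ ⊤) this
      rw [commutator_def]
      simpa using h4
    have h6 : commutator H = ⊥ := by
      rw [commutator_def, eq_bot_iff, Subgroup.commutator_le]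
      intro x _ y _
      rw [Subgroup.mem_bot, commutatorElement_eq_one_iff_mul_comm]
      exact hH x y
    rw [h6, Subgroup.mem_bot] at h5
    exact h5
  · right
    push Not at hH
    obtain ⟨a, a', ha⟩ := hH
    have hK : ∀ b b' : K, b * b' = b' * b := by
      intro b b'
      have := centralizer_comm (e.symm (a, 1)) ⟨e.symm (a', 1), fun h => ha (by
        have h2 := congrArg (fun z => (e z).1) h
        simpa using h2)⟩ (e.symm (1, b)) (e.symm (1, b'))
        (by rw [← map_mul, ← map_mul]; simp) (by rw [← map_mul, ← map_mul]; simp)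
      have h2 := congrArg (fun z => (e z).2) this
      simpa using h2
    refine ⟨fun a b => ?_⟩
    suffices h : ∀ a : K, a = 1 by rw [h a, h b]
    intro a
    have hc : e.symm (1, a) ∈ Subgroup.center N := by
      rw [Subgroup.mem_center_iff]
      intro g
      apply e.injective
      rw [map_mul, map_mul, MulEquiv.apply_symm_apply]
      exact Prod.ext (by simp) (hK _ _)
    have hc2 := center_le_commutator hc
    have h3 : ((1 : H), a) ∈ commutator (H × K) := by
      have := Subgroup.mem_map_of_mem (e : N →* H × K) hc2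
      rw [commutator_def, Subgroup.map_commutator] at this
      have h4 := Subgroup.commutator_mono (le_top : Subgroup.map (e : N →* H × K) ⊤ ≤ ⊤)
        (le_top : Subgroup.map (e : N →* H × K) ⊤ ≤ ⊤) this
      rw [commutator_def]
      simpa using h4
    have h5 : a ∈ commutator K := by
      have := Subgroup.mem_map_of_mem (MonoidHom.snd H K) h3
      rw [commutator_def, Subgroup.map_commutator] at this
      have h4 := Subgroup.commutator_mono (le_top : Subgroup.map (MonoidHom.snd H K) ⊤ ≤ ⊤)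
        (le_top : Subgroup.map (MonoidHom.snd H K) ⊤ ≤ ⊤) this
      rw [commutator_def]
      simpa using h4
    have h6 : commutator K = ⊥ := by
      rw [commutator_def, eq_bot_iff, Subgroup.commutator_le]
      intro x _ y _
      rw [Subgroup.mem_bot, commutatorElement_eq_one_iff_mul_comm]
      exact hK x y
    rw [h6, Subgroup.mem_bot] at h5
    exact h5

end N

/-- The real Heisenberg group of dimension `2 n + 1`: triples `(p, q, z)` with the product
`(p, q, z) (p', q', z') = (p + p', q + q', z + z' + p . q')`. -/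
@[ext] structure Heis (n : ℕ) where
  p : Fin n → ℝ
  q : Fin n → ℝ
  z : ℝ

namespace Heis

variable {n : ℕ}

instance : Mul (Heis n) := ⟨fun a b => ⟨a.p + b.p, a.q + b.q, a.z + b.z + ∑ i, a.p i * b.q i⟩⟩
instance : One (Heis n) := ⟨⟨0, 0, 0⟩⟩
instance : Inv (Heis n) := ⟨fun a => ⟨-a.p, -a.q, -a.z + ∑ i, a.p i * a.q i⟩⟩

lemma mul_def (a b : Heis n) : a * b = ⟨a.p + b.p, a.q + b.q, a.z + b.z + ∑ i, a.p i * b.q i⟩ := rfl
lemma one_def : (1 : Heis n) = ⟨0, 0, 0⟩ := rfl
lemma inv_def (a : Heis n) : a⁻¹ = ⟨-a.p, -a.q, -a.z + ∑ i, a.p i * a.q i⟩ := rfl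

instance : Group (Heis n) := Group.ofLeftAxioms
  (by
    intro a b c
    simp only [mul_def, Heis.mk.injEq]
    refine ⟨by abel, by abel, ?_⟩
    simp only [Pi.add_apply, add_mul, mul_add, Finset.sum_add_distrib]
    ring)
  (by
    intro a
    simp [mul_def, one_def])
  (by
    intro a
    simp only [mul_def, one_def, inv_def, Heis.mk.injEq]
    refine ⟨by simp, by simp, ?_⟩
    simp)

lemma class_le : (⊤ : Subgroup (Heis n)).lowerCentralSeries 2 = ⊥ := by
  rw [Subgroup.lowerCentralSeries_succ, eq_bot_iff, Subgroup.commutator_le]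
  intro x hx y _
  rw [Subgroup.mem_bot, commutatorElement_eq_one_iff_mul_comm]
  have hx' : x.p = 0 ∧ x.q = 0 := by
    let S : Subgroup (Heis n) :=
      { carrier := {x | x.p = 0 ∧ x.q = 0}
        mul_mem' := by
          rintro a b ⟨h1, h2⟩ ⟨h3, h4⟩
          exact ⟨by simp [mul_def, h1, h3], by simp [mul_def, h2, h4]⟩
        one_mem' := ⟨rfl, rfl⟩
        inv_mem' := by
          rintro a ⟨h1, h2⟩
          exact ⟨by simp [inv_def, h1], by simp [inv_def, h2]⟩ }
    have : (⊤ : Subgroup (Heis n)).lowerCentralSeries 1 ≤ S := by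
      rw [Subgroup.lowerCentralSeries_succ, Subgroup.lowerCentralSeries_zero,
        Subgroup.commutator_le]
      intro a _ b _
      rw [commutatorElement_def]
      refine ⟨?_, ?_⟩
      · simp only [mul_def, inv_def]; abel
      · simp only [mul_def, inv_def]; abel
    exact this hx
  ext i
  · simp [mul_def, hx'.1]
  · simp [mul_def, hx'.2]
  · simp only [mul_def, hx'.1, hx'.2]
    simp [add_comm]

end Heis

/-- `N` has no Heisenberg direct factor, not even as an abstract group. -/
theorem N.no_heisenberg (n : ℕ) (K : Type) [Group K] : IsEmpty (N ≃* Heis n × K) := by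
  refine ⟨fun e => ?_⟩
  rcases N.indecomposable _ _ e with h | h
  · have : (⟨0, 0, 1⟩ : Heis n) = ⟨0, 0, 0⟩ := Subsingleton.elim _ _
    simp at this
  · have key : (⊤ : Subgroup N).lowerCentralSeries 2 = ⊥ := by
      rw [eq_bot_iff]
      intro x hx
      let φ : N →* Heis n := (MonoidHom.fst (Heis n) K).comp (e : N →* Heis n × K)
      have h1 := Subgroup.mem_map_of_mem φ hx
      rw [Subgroup.map_lowerCentralSeries] at h1
      have h2 : φ x ∈ (⊤ : Subgroup (Heis n)).lowerCentralSeries 2 :=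
        Subgroup.lowerCentralSeries_mono 2 (le_top : Subgroup.map φ ⊤ ≤ ⊤) h1
      rw [Heis.class_le, Subgroup.mem_bot] at h2
      rw [Subgroup.mem_bot]
      apply e.injective
      rw [map_one]
      exact Prod.ext h2 (Subsingleton.elim _ _)
    rw [N.lcs2] at key
    exact N.nontrivial_N3 key

end Pool.Agent.H463R3.NilGroup
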