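import Mathlib
import Pool.Agent.H463R3.NilGroup

open scoped Manifold ContDiff ENNReal Topology
open Set MeasureTheory Manifold Bundle

noncomputable section

namespace Pool.Agent.H463R3.NilGroup

set_option backward.isDefEq.respectTransparency false in
/-- A smooth family of bilinear forms on a vector space is a smooth section of the bundle of
bilinear forms on the tangent spaces. -/
lemma contMDiff_bilin_section {F : Type*} [NormedAddCommGroup F] [NormedSpace ℝ F] {n : ℕ∞ω}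
    (G : F → (F →L[ℝ] F →L[ℝ] ℝ)) (hG : ContDiff ℝ n G) :
    ContMDiff 𝓘(ℝ, F) (𝓘(ℝ, F).prod 𝓘(ℝ, F →L[ℝ] F →L[ℝ] ℝ)) n
    (fun b : F => TotalSpace.mk' (F →L[ℝ] F →L[ℝ] ℝ)
      (E := fun x : F => TangentSpace 𝓘(ℝ, F) x →L[ℝ] TangentSpace 𝓘(ℝ, F) x →L[ℝ] ℝ) b
      (G b)) := by
  intro x
  rw [contMDiffAt_section]
  have h := hG.contMDiff.contMDiffAt (x := x)
  convert! h
  ext v w
  simp [hom_trivializationAt_apply, ContinuousLinearMap.inCoordinates, TangentSpace]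

/-- The standard inner product of `R^6`. -/
def B : E →L[ℝ] E →L[ℝ] ℝ :=
  ∑ i : Fin 6, (ContinuousLinearMap.proj i : E →L[ℝ] ℝ).smulRight
    (ContinuousLinearMap.proj i : E →L[ℝ] ℝ)

lemma B_apply (v w : E) : B v w = v 0 * w 0 + v 1 * w 1 + v 2 * w 2 +
    v 3 * w 3 + v 4 * w 4 + v 5 * w 5 := by
  simp [B, Fin.sum_univ_six]

lemma B_symm (v w : E) : B v w = B w v := by
  simp only [B_apply]; ring

lemma sq_le_B (θ : E) : θ 0 ^ 2 ≤ B θ θ ∧ θ 1 ^ 2 ≤ B θ θ ∧ θ 2 ^ 2 ≤ B θ θ ∧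
    θ 3 ^ 2 ≤ B θ θ ∧ θ 4 ^ 2 ≤ B θ θ ∧ θ 5 ^ 2 ≤ B θ θ := by
  rw [B_apply]
  refine ⟨?_, ?_, ?_, ?_, ?_, ?_⟩ <;>
  nlinarith [sq_nonneg (θ 0), sq_nonneg (θ 1), sq_nonneg (θ 2), sq_nonneg (θ 3),
    sq_nonneg (θ 4), sq_nonneg (θ 5)]

lemma B_pos (v : E) (hv : v ≠ 0) : 0 < B v v := by
  by_contra h
  apply hv
  obtain ⟨h0, h1, h2, h3, h4, h5⟩ := sq_le_B v
  have key : ∀ a : ℝ, a ^ 2 ≤ B v v → a = 0 := by
    intro a ha
    have : a ^ 2 = 0 := le_antisymm (by linarith) (sq_nonneg a)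
    exact pow_eq_zero_iff (two_ne_zero) |>.1 this
  apply ext6E
  · exact key _ h0
  · exact key _ h1
  · exact key _ h2
  · exact key _ h3
  · exact key _ h4
  · exact key _ h5

lemma norm_le_of_B (v : E) (hv : B v v < 1) : ‖v‖ ≤ 1 := by
  obtain ⟨h0, h1, h2, h3, h4, h5⟩ := sq_le_B v
  have key : ∀ a : ℝ, a ^ 2 ≤ B v v → ‖a‖ ≤ 1 := by
    intro a ha
    rw [Real.norm_eq_abs, abs_le]
    constructor <;> nlinarith
  rw [pi_norm_le_iff_of_nonneg zero_le_one]
  intro i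
  fin_cases i
  · exact key _ h0
  · exact key _ h1
  · exact key _ h2
  · exact key _ h3
  · exact key _ h4
  · exact key _ h5

lemma B_A_pos (s : ℝ) (v : E) (hv : v ≠ 0) : 0 < B (A s v) (A s v) := by
  refine B_pos _ (fun h => hv ?_)
  have : A (-s) (A s v) = A (-s) 0 := by rw [h]
  rw [A_A, neg_add_cancel, A_zero] at this
  rw [this]
  simpa using A_smul (-s) 0 0

/-- The value at `x` of the left-invariant Riemannian metric of `N` that is the standard inner
product at the identity; `A (- x.co 0)` is the derivative of the left translation by the inverse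
of `x`. -/
def innerAt (x : N) : E →L[ℝ] E →L[ℝ] ℝ := B.bilinearComp (N.AL (- x.co 0)) (N.AL (- x.co 0))

lemma contDiff_metric : ContDiff ℝ ω (fun x : E => innerAt (N.of x)) := by
  rw [contDiff_clm_apply_iff]
  intro v
  rw [contDiff_clm_apply_iff]
  intro w
  simp only [innerAt, ContinuousLinearMap.bilinearComp_apply, N.AL_apply, B_apply, A0, A1, A2, A3,
    A4, A5, N.co_of]
  fun_prop

/-- The left-invariant Riemannian metric of `N` that is the standard inner product at the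
identity. -/
def metric : ContMDiffRiemannianMetric 𝓘(ℝ, E) ∞ E (fun x : N => TangentSpace 𝓘(ℝ, E) x) where
  inner x := innerAt x
  symm x v w := B_symm _ _
  pos x v hv := B_A_pos _ _ hv
  isVonNBounded x := by
    change Bornology.IsVonNBounded ℝ {v : E | B (A (- x.co 0) v) (A (- x.co 0) v) < 1}
    rw [NormedSpace.isVonNBounded_iff, isBounded_iff_forall_norm_le]
    refine ⟨‖N.AL (x.co 0)‖ * 1, fun v hv => ?_⟩
    have h1 : ‖A (- x.co 0) v‖ ≤ 1 := norm_le_of_B _ hv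
    have h2 : v = N.AL (x.co 0) (A (- x.co 0) v) := by
      rw [N.AL_apply, A_A, add_neg_cancel, A_zero]
    calc ‖v‖ = ‖N.AL (x.co 0) (A (- x.co 0) v)‖ := by rw [← h2]
      _ ≤ ‖N.AL (x.co 0)‖ * ‖A (- x.co 0) v‖ := ContinuousLinearMap.le_opNorm _ _
      _ ≤ _ := by gcongr
  contMDiff := contMDiff_bilin_section _ (contDiff_metric.of_le le_top)

end Pool.Agent.H463R3.NilGroup
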