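import Mathlib
import Pool.Agent.H463R3.NilMetric

open scoped Manifold ContDiff ENNReal Topology NNReal
open Set MeasureTheory Manifold Bundle

noncomputable section

namespace Pool.Agent.H463R3.NilGroup

section General

variable {F : Type*} [NormedAddCommGroup F] [NormedSpace ℝ F]
  {H : Type*} [TopologicalSpace H] {I : ModelWithCorners ℝ F H}
  {M : Type*} [TopologicalSpace M] [ChartedSpace H M]
  {F' : Type*} [NormedAddCommGroup F'] [NormedSpace ℝ F']
  {H' : Type*} [TopologicalSpace H'] {I' : ModelWithCorners ℝ F' H'}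
  {M' : Type*} [TopologicalSpace M'] [ChartedSpace H' M']
  [∀ x : M, ENorm (TangentSpace I x)] [∀ x : M', ENorm (TangentSpace I' x)]

/-- A `C^1` map whose derivative multiplies norms by at most `C` multiplies Riemannian distances
by at most `C`. -/
lemma riemannianEDist_map_le (f : M → M') (hf : ContMDiff I I' 1 f) (C : ℝ≥0) (hC : C ≠ 0)
    (h : ∀ (x : M) (v : TangentSpace I x), ‖mfderiv I I' f x v‖ₑ ≤ C * ‖v‖ₑ) (x y : M) :
    riemannianEDist I' (f x) (f y) ≤ C * riemannianEDist I x y := by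
  have hC' : (C : ℝ≥0∞) ≠ 0 := ENNReal.coe_ne_zero.2 hC
  rw [riemannianEDist_def I, ENNReal.mul_iInf_of_ne hC' ENNReal.coe_ne_top]
  refine le_iInf fun γ => ?_
  rw [ENNReal.mul_iInf_of_ne hC' ENNReal.coe_ne_top]
  refine le_iInf fun hγ => ?_
  rw [riemannianEDist_def I']
  have hγ' : ContMDiff (𝓡∂ 1) I' 1 (γ.map hf.continuous) := hf.comp hγ
  refine (iInf₂_le (γ.map hf.continuous) hγ').trans ?_
  rw [← lintegral_const_mul' _ _ ENNReal.coe_ne_top]
  refine lintegral_mono fun t => ?_
  have e : mfderiv (𝓡∂ 1) I' (γ.map hf.continuous) t 1 =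
      mfderiv I I' f (γ t) (mfderiv (𝓡∂ 1) I γ t 1) := by
    have := mfderiv_comp (I := 𝓡∂ 1) (I' := I) (I'' := I') t
      (hf.mdifferentiable one_ne_zero (γ t)) (hγ.mdifferentiable one_ne_zero t)
    have h2 : (γ.map hf.continuous : unitInterval → M') = f ∘ γ := rfl
    rw [h2, this]
    rfl
  rw [e]
  exact h _ _

end General

end Pool.Agent.H463R3.NilGroup
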