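import Mathlib
import Pool.Agent.H463R3.NilGroup

open scoped Manifold ContDiff ENNReal Topology NNReal
open Set

noncomputable section

namespace Pool.Agent.H463R3.NilGroup

/-- A stratification of step `r` of a real Lie algebra `L`: subspaces `V 1, ..., V r` with
`L` their direct sum, `[V 1, V j] = V (j + 1)` for `j` at least one, and `V j = 0` for `j > r`. -/
structure IsStratification {L : Type} [LieRing L] [LieAlgebra ℝ L] (r : ℕ)
    (V : ℕ → Submodule ℝ L) : Prop where
  direct : ∀ x : L, ∃! y : Fin r → L, (∀ i : Fin r, y i ∈ V (i + 1)) ∧ ∑ i, y i = x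
  bracket : ∀ j, 1 ≤ j →
    Submodule.span ℝ {z : L | ∃ x ∈ V 1, ∃ y ∈ V j, ⁅x, y⁆ = z} = V (j + 1)
  vanish : ∀ j, r < j → V j = ⊥

namespace N

instance : LieGroup 𝓘(ℝ, E) (minSmoothness ℝ 3) N := LieGroup.of_le (n := ω) le_top

/-- the bracket of the Lie algebra of `N`, in coordinates -/
def br (v w : E) : E :=
  ![0, 0, v 0 * w 1 - w 0 * v 1, v 0 * w 2 - w 0 * v 2, 0, v 0 * w 4 - w 0 * v 4]

lemma hasFDerivAt_mul_left (g : E) (y : E) :
    HasFDerivAt (fun z : E => g + A (g 0) z) (AL (g 0)) y := by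
  have := (AL (g 0)).hasFDerivAt (x := y)
  exact this.const_add g

lemma mfderiv_mul_left (g y : N) :
    mfderiv 𝓘(ℝ, E) 𝓘(ℝ, E) (fun z : N => g * z) y = AL (g.co 0) := by
  have h : mfderiv 𝓘(ℝ, E) 𝓘(ℝ, E) (fun z : E => g.co + A (g.co 0) z) y.co = AL (g.co 0) := by
    rw [mfderiv_eq_fderiv]
    exact (hasFDerivAt_mul_left g.co y.co).fderiv
  exact h

lemma mulInvariantVectorField_eq (v : GroupLieAlgebra 𝓘(ℝ, E) N) (g : N) :
    mulInvariantVectorField v g = (A (g.co 0) v : E) := by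
  unfold mulInvariantVectorField
  rw [mfderiv_mul_left]
  rfl

/-- the linear map `v -> [w, v]` for `w` fixed, as a function of `w` -/
def brL (v : E) : E →L[ℝ] E :=
  LinearMap.toContinuousLinearMap
    { toFun := fun w : E => ![0, 0, w 0 * v 1, w 0 * v 2, 0, w 0 * v 4]
      map_add' := by
        intro x y
        apply ext6E <;> simp only [Pi.add_apply, m0, m1, m2, m3, m4, m5] <;> ring
      map_smul' := by
        intro c x
        apply ext6E <;> simp only [Pi.smul_apply, smul_eq_mul, RingHom.id_apply,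
          m0, m1, m2, m3, m4, m5] <;> ring }

lemma brL_apply (v w : E) : brL v w = ![0, 0, w 0 * v 1, w 0 * v 2, 0, w 0 * v 4] :=
  rfl

lemma hasFDerivAt_A (v : E) : HasFDerivAt (fun g : E => A (g 0) v) (brL v) 0 := by
  have h0 : HasFDerivAt (fun g : E => g 0) (ContinuousLinearMap.proj 0 : E →L[ℝ] ℝ) 0 :=
    hasFDerivAt_apply 0 0
  have hc : ∀ c : ℝ, HasFDerivAt (fun _ : E => c) (0 : E →L[ℝ] ℝ) 0 := fun c =>
    hasFDerivAt_const c 0
  rw [hasFDerivAt_pi']
  intro i
  fin_cases i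
  · refine (hc (v 0)).congr_fderiv (ContinuousLinearMap.ext fun w => ?_)
    simp [brL_apply]
  · refine (hc (v 1)).congr_fderiv (ContinuousLinearMap.ext fun w => ?_)
    simp [brL_apply]
  · have h2 : HasFDerivAt (fun g : E => v 2 + g 0 * v 1) _ 0 :=
      (hc (v 2)).add (h0.mul_const (v 1))
    refine h2.congr_fderiv (ContinuousLinearMap.ext fun w => ?_)
    simp [brL_apply, mul_comm]
  · have h3 : HasFDerivAt
        (fun g : E => v 3 + g 0 * v 2 + g 0 ^ 2 * (1 / 2) * v 1) _ 0 :=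
      ((hc (v 3)).add (h0.mul_const (v 2))).add
        ((((h0.pow 2).mul_const (1 / 2 : ℝ))).mul_const (v 1))
    have e : (fun g : E => A (g 0) v 3) = (fun g : E => v 3 + g 0 * v 2 +
        g 0 ^ 2 * (1 / 2) * v 1) := by
      funext g
      rw [A3]
      ring
    change HasFDerivAt (fun g : E => A (g 0) v 3) _ 0
    rw [e]
    refine h3.congr_fderiv (ContinuousLinearMap.ext fun w => ?_)
    simp [brL_apply, mul_comm]
  · refine (hc (v 4)).congr_fderiv (ContinuousLinearMap.ext fun w => ?_)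
    simp [brL_apply]
  · have h5 : HasFDerivAt (fun g : E => v 5 + g 0 * v 4) _ 0 :=
      (hc (v 5)).add (h0.mul_const (v 4))
    refine h5.congr_fderiv (ContinuousLinearMap.ext fun w => ?_)
    simp [brL_apply, mul_comm]

set_option backward.isDefEq.respectTransparency false in
lemma mlie_eq {F : Type*} [NormedAddCommGroup F] [NormedSpace ℝ F] (V W : F → F) (x : F) :
    VectorField.mlieBracket 𝓘(ℝ, F) (M := F) (V : (x : F) → TangentSpace 𝓘(ℝ, F) x)
      (W : (x : F) → TangentSpace 𝓘(ℝ, F) x) x = fderiv ℝ W x (V x) - fderiv ℝ V x (W x) := by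
  rw [← VectorField.mlieBracketWithin_univ, VectorField.mlieBracketWithin_eq_lieBracketWithin,
    VectorField.lieBracketWithin_univ]
  rfl

lemma bracket_aux (v w : E) :
    VectorField.mlieBracket 𝓘(ℝ, E) (M := E)
      ((fun g : E => A (g 0) v : E → E) : (x : E) → TangentSpace 𝓘(ℝ, E) x)
      ((fun g : E => A (g 0) w : E → E) : (x : E) → TangentSpace 𝓘(ℝ, E) x) (0 : E) = br v w := by
  rw [mlie_eq (fun g : E => A (g 0) v) (fun g : E => A (g 0) w) 0, (hasFDerivAt_A v).fderiv,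
    (hasFDerivAt_A w).fderiv]
  change brL w (A ((0 : E) 0) v) - brL v (A ((0 : E) 0) w) = br v w
  simp only [brL_apply, A0, br]
  apply ext6E <;> simp [m0, m1, m2, m3, m4, m5]

lemma bracket_eq (v w : GroupLieAlgebra 𝓘(ℝ, E) N) : ⁅v, w⁆ = (br v w : E) := by
  rw [GroupLieAlgebra.bracket_def]
  have hV : (mulInvariantVectorField v : (g : N) → TangentSpace 𝓘(ℝ, E) g) =
      fun g => (A (g.co 0) v : E) := funext fun g => mulInvariantVectorField_eq v g
  have hW : (mulInvariantVectorField w : (g : N) → TangentSpace 𝓘(ℝ, E) g) =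
      fun g => (A (g.co 0) w : E) := funext fun g => mulInvariantVectorField_eq w g
  rw [hV, hW]
  exact bracket_aux v w

/-- the strata of the Lie algebra of `N`, in coordinates -/
def strat (j : ℕ) : Submodule ℝ E where
  carrier := {v | (j ≠ 1 → v 0 = 0 ∧ v 1 = 0 ∧ v 4 = 0) ∧
    (j ≠ 2 → v 2 = 0 ∧ v 5 = 0) ∧ (j ≠ 3 → v 3 = 0)}
  add_mem' := by
    rintro x y ⟨h1, h2, h3⟩ ⟨h1', h2', h3'⟩
    refine ⟨fun h => ?_, fun h => ?_, fun h => ?_⟩
    · simp [h1 h, h1' h]
    · simp [h2 h, h2' h]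
    · simp [h3 h, h3' h]
  zero_mem' := by simp
  smul_mem' := by
    rintro c x ⟨h1, h2, h3⟩
    refine ⟨fun h => ?_, fun h => ?_, fun h => ?_⟩
    · simp [h1 h]
    · simp [h2 h]
    · simp [h3 h]

lemma mem_strat (j : ℕ) (v : E) : v ∈ strat j ↔
    ((j ≠ 1 → v 0 = 0 ∧ v 1 = 0 ∧ v 4 = 0) ∧
    (j ≠ 2 → v 2 = 0 ∧ v 5 = 0) ∧ (j ≠ 3 → v 3 = 0)) := Iff.rfl

lemma strat_direct (x : E) : ∃! y : Fin 3 → E, (∀ i : Fin 3, y i ∈ strat (i + 1)) ∧
    ∑ i, y i = x := by
  refine ⟨![![x 0, x 1, 0, 0, x 4, 0], ![0, 0, x 2, 0, 0, x 5],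
    ![0, 0, 0, x 3, 0, 0]], ⟨?_, ?_⟩, ?_⟩
  · intro i
    fin_cases i <;> simp [mem_strat]
  · rw [Fin.sum_univ_three]
    apply ext6E <;> simp
  · rintro y ⟨hy, hs⟩
    have h0 := (mem_strat _ _).1 (hy 0)
    have h1 := (mem_strat _ _).1 (hy 1)
    have h2 := (mem_strat _ _).1 (hy 2)
    simp at h0 h1 h2
    rw [Fin.sum_univ_three] at hs
    subst hs
    funext i
    fin_cases i
    · apply ext6E <;> simp [h0, h1, h2]
    · apply ext6E <;> simp [h0, h1, h2]
    · apply ext6E <;> simp [h0, h1, h2]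

lemma strat_bracket (j : ℕ) (hj : 1 ≤ j) :
    Submodule.span ℝ {z : E | ∃ x ∈ strat 1, ∃ y ∈ strat j, br x y = z} = strat (j + 1) := by
  apply le_antisymm
  · rw [Submodule.span_le]
    rintro z ⟨x, hx, y, hy, rfl⟩
    rw [SetLike.mem_coe, mem_strat]
    rw [mem_strat] at hx hy
    simp at hx
    refine ⟨fun h => ?_, fun h => ?_, fun h => ?_⟩
    · simp [br]
    · have hj1 : j ≠ 1 := fun h' => h (by omega)
      simp [br, hx, hy.1 hj1]
    · have hj1 : j ≠ 2 := fun h' => h (by omega)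
      simp [br, hx, hy.2.1 hj1]
  · intro z hz
    rw [mem_strat] at hz
    obtain ⟨h1, h2, h3⟩ := hz
    have h1' := h1 (by omega)
    by_cases hj1 : j = 1
    · subst hj1
      apply Submodule.subset_span
      refine ⟨![1, 0, 0, 0, 0, 0], by simp [mem_strat], ![0, z 2, 0, 0, z 5, 0],
        by simp [mem_strat], ?_⟩
      have h3' := h3 (by omega)
      apply ext6E <;> simp [br, h1', h3']
    · have h2' := h2 (by omega)
      by_cases hj2 : j = 2
      · subst hj2
        apply Submodule.subset_span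
        refine ⟨![1, 0, 0, 0, 0, 0], by simp [mem_strat], ![0, 0, z 3, 0, 0, 0],
          by simp [mem_strat], ?_⟩
        apply ext6E <;> simp [br, h1', h2']
      · have h3' := h3 (by omega)
        have : z = 0 := by apply ext6E <;> simp [h1', h2', h3']
        rw [this]
        exact Submodule.zero_mem _

lemma strat_vanish (j : ℕ) (hj : 3 < j) : strat j = ⊥ := by
  rw [eq_bot_iff]
  intro z hz
  rw [mem_strat] at hz
  obtain ⟨h1, h2, h3⟩ := hz
  have h1' := h1 (by omega)
  have h2' := h2 (by omega)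
  have h3' := h3 (by omega)
  rw [Submodule.mem_bot]
  apply ext6E <;> simp [h1', h2', h3']

/-- the strata of the Lie algebra of `N`, as subspaces of the Lie algebra -/
def stratL (j : ℕ) : Submodule ℝ (GroupLieAlgebra 𝓘(ℝ, E) N) := strat j

theorem isStratification : IsStratification (L := GroupLieAlgebra 𝓘(ℝ, E) N) 3 stratL where
  direct x := strat_direct x
  bracket j hj := by
    have h := strat_bracket j hj
    have e : {z : GroupLieAlgebra 𝓘(ℝ, E) N | ∃ x ∈ stratL 1, ∃ y ∈ stratL j, ⁅x, y⁆ = z} =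
        {z : E | ∃ x ∈ strat 1, ∃ y ∈ strat j, br x y = z} := by
      ext z
      constructor
      · rintro ⟨x, hx, y, hy, h⟩
        rw [bracket_eq] at h
        exact ⟨x, hx, y, hy, h⟩
      · rintro ⟨x, hx, y, hy, h⟩
        exact ⟨x, hx, y, hy, (bracket_eq _ _).trans h⟩
    rw [e]
    exact h
  vanish j hj := strat_vanish j hj

end N

end Pool.Agent.H463R3.NilGroup
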