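import Mathlib
import Pool.Agent.H463R3.NilDist
import Pool.Agent.H463R3.NilLie
import Pool.Agent.H463R3.NilAlg

open scoped Manifold ContDiff ENNReal Topology NNReal
open Set MeasureTheory Manifold Bundle

noncomputable section

namespace Pool.Agent.H463R3.NilGroup

namespace N

instance : RiemannianBundle (fun x : N => TangentSpace 𝓘(ℝ, E) x) := ⟨metric.toRiemannianMetric⟩

instance : IsContMDiffRiemannianBundle 𝓘(ℝ, E) ∞ E (fun x : N => TangentSpace 𝓘(ℝ, E) x) :=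
  inferInstance

instance : IsContinuousRiemannianBundle E (fun x : N => TangentSpace 𝓘(ℝ, E) x) :=
  ⟨metric.inner, metric.contMDiff.continuous, fun _ _ _ => rfl⟩

lemma inner_eq (x : N) (v w : TangentSpace 𝓘(ℝ, E) x) :
    inner ℝ v w = B (A (- x.co 0) v) (A (- x.co 0) w) := rfl

lemma norm_sq_eq (x : N) (v : TangentSpace 𝓘(ℝ, E) x) :
    ‖v‖ ^ 2 = B (A (- x.co 0) v) (A (- x.co 0) v) := by
  rw [← real_inner_self_eq_norm_sq, inner_eq]

lemma inner_left_aux (g x : N) (v w : E) :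
    B (A (- (g * x).co 0) (A (g.co 0) v)) (A (- (g * x).co 0) (A (g.co 0) w)) =
      B (A (- x.co 0) v) (A (- x.co 0) w) := by
  rw [A_A, A_A, co0_mul]
  congr 3 <;> ring

theorem inner_left_invariant (g x : N) (v w : TangentSpace 𝓘(ℝ, E) x) :
    inner ℝ (mfderiv 𝓘(ℝ, E) 𝓘(ℝ, E) (fun z : N => g * z) x v)
      (mfderiv 𝓘(ℝ, E) 𝓘(ℝ, E) (fun z : N => g * z) x w) = inner ℝ v w := by
  rw [inner_eq, inner_eq]
  rw [mfderiv_mul_left]
  exact inner_left_aux g x v w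

/-- the function `log (1 + t ^ 4 + c ^ 2)` -/
def cfun (x : E) : ℝ := Real.log (1 + x 0 ^ 4 + x 3 ^ 2)

lemma cpos (x : E) : 0 < 1 + x 0 ^ 4 + x 3 ^ 2 := by positivity

/-- the first coordinate -/
def p0 : E →L[ℝ] ℝ := ContinuousLinearMap.proj 0

/-- the fourth coordinate -/
def p3 : E →L[ℝ] ℝ := ContinuousLinearMap.proj 3

/-- the last coordinate -/
def p5 : E →L[ℝ] ℝ := ContinuousLinearMap.proj 5

@[simp] lemma p0_apply (v : E) : p0 v = v 0 := rfl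
@[simp] lemma p3_apply (v : E) : p3 v = v 3 := rfl
@[simp] lemma p5_apply (v : E) : p5 v = v 5 := rfl

lemma hasFDerivAt_cfun (x : E) : HasFDerivAt cfun
    ((1 + x 0 ^ 4 + x 3 ^ 2)⁻¹ • ((4 * x 0 ^ 3) • p0 + (2 * x 3) • p3)) x := by
  have h0 : HasFDerivAt (fun y : E => y 0) p0 x := p0.hasFDerivAt
  have h3 : HasFDerivAt (fun y : E => y 3) p3 x := p3.hasFDerivAt
  have h : HasFDerivAt (fun y : E => 1 + y 0 ^ 4 + y 3 ^ 2) _ x :=
    ((hasFDerivAt_const (1 : ℝ) x).add (h0.pow 4)).add (h3.pow 2)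
  have h' := h.log (cpos x).ne'
  refine h'.congr_fderiv ?_
  congr 1
  refine ContinuousLinearMap.ext fun v => ?_
  simp
  try ring

lemma contDiff_cfun : ContDiff ℝ 1 cfun := by
  unfold cfun
  apply ContDiff.log
  · fun_prop
  · exact fun x => (cpos x).ne'

/-- the map `x -> x exp(ε c(x) Y)` -/
def shear (ε : ℝ) (x : N) : N := of (x.co + ![0, 0, 0, 0, 0, ε * cfun x.co])

lemma shear_co0 (ε : ℝ) (x : N) : (shear ε x).co 0 = x.co 0 := add_zero _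
lemma shear_co1 (ε : ℝ) (x : N) : (shear ε x).co 1 = x.co 1 := add_zero _
lemma shear_co2 (ε : ℝ) (x : N) : (shear ε x).co 2 = x.co 2 := add_zero _
lemma shear_co3 (ε : ℝ) (x : N) : (shear ε x).co 3 = x.co 3 := add_zero _
lemma shear_co4 (ε : ℝ) (x : N) : (shear ε x).co 4 = x.co 4 := add_zero _
lemma shear_co5 (ε : ℝ) (x : N) : (shear ε x).co 5 = x.co 5 + ε * cfun x.co := rfl

/-- the linear map `s -> ![0, 0, 0, 0, 0, s]` -/
def i5 : ℝ →L[ℝ] E := LinearMap.toContinuousLinearMap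
    { toFun := fun s => ![0, 0, 0, 0, 0, s]
      map_add' := by
        intro x y
        apply ext6E <;> simp only [Pi.add_apply, m0, m1, m2, m3, m4, m5] <;> ring
      map_smul' := by
        intro c x
        apply ext6E <;> simp only [Pi.smul_apply, smul_eq_mul, RingHom.id_apply,
          m0, m1, m2, m3, m4, m5] <;> ring }

@[simp] lemma i5_apply (s : ℝ) : i5 s = ![0, 0, 0, 0, 0, s] := rfl

lemma contMDiff_shear (ε : ℝ) : ContMDiff 𝓘(ℝ, E) 𝓘(ℝ, E) 1 (shear ε) := by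
  have h : ContDiff ℝ 1 (fun x : E => x + i5 (ε * cfun x)) := by
    have := contDiff_cfun
    fun_prop
  exact h.contMDiff

lemma shear_aux (ε r a b : ℝ) (v : E) :
    (ContinuousLinearMap.id ℝ E + i5 ∘SL (ε • r • (a • p0 + b • p3)) : E →L[ℝ] E) v =
      v + i5 (ε * (r * (a * v 0 + b * v 3))) := by
  rfl

lemma mfderiv_shear (ε : ℝ) (x : N) (v : E) :
    (mfderiv 𝓘(ℝ, E) 𝓘(ℝ, E) (shear ε) x v : E) = v + i5 (ε * ((1 + x.co 0 ^ 4 +
      x.co 3 ^ 2)⁻¹ * (4 * x.co 0 ^ 3 * v 0 + 2 * x.co 3 * v 3))) := by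
  have h1 : HasFDerivAt (fun x : E => x + i5 (ε * cfun x)) _ x.co :=
    (hasFDerivAt_id x.co).add (i5.hasFDerivAt.comp x.co ((hasFDerivAt_cfun x.co).const_mul ε))
  have h : mfderiv 𝓘(ℝ, E) 𝓘(ℝ, E) (fun x : E => x + i5 (ε * cfun x)) x.co =
      fderiv ℝ (fun x : E => x + i5 (ε * cfun x)) x.co := mfderiv_eq_fderiv
  rw [h1.fderiv] at h
  have h2 := congrArg (fun L => (L v : E)) h
  refine Eq.trans h2 ?_
  exact shear_aux ε _ _ _ v

/-- the estimate of the derivative of `cfun` -/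
lemma cfun_bound (s c a0 a1 a2 a3 n : ℝ) (h0 : |a0| ≤ n) (h1 : |a1| ≤ n)
    (h2 : |a2| ≤ n) (h3 : |a3| ≤ n) :
    |(1 + s ^ 4 + c ^ 2)⁻¹ * (4 * s ^ 3 * a0 + 2 * c * (a3 + s * a2 + s ^ 2 / 2 * a1))| ≤
      7 * n := by
  have hp : 0 < 1 + s ^ 4 + c ^ 2 := by positivity
  rw [abs_mul, abs_inv, abs_of_pos hp, inv_mul_le_iff₀ hp]
  have b0 : |4 * s ^ 3 * a0| ≤ 4 * (1 + s ^ 4 + c ^ 2) * n := by
    rw [abs_mul]
    refine mul_le_mul ?_ h0 (abs_nonneg _) (by positivity)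
    rw [abs_le]
    constructor <;> nlinarith [sq_nonneg (s ^ 2 - 1), sq_nonneg (s - 1), sq_nonneg (s + 1),
      sq_nonneg (s ^ 2 - s), sq_nonneg (s ^ 2 + s), sq_nonneg c, sq_nonneg s]
  have b3 : |2 * c * a3| ≤ (1 + s ^ 4 + c ^ 2) * n := by
    rw [abs_mul]
    refine mul_le_mul ?_ h3 (abs_nonneg _) (by positivity)
    rw [abs_le]
    constructor <;> nlinarith [sq_nonneg (c - 1), sq_nonneg (c + 1), sq_nonneg (s ^ 2)]
  have b2 : |2 * c * s * a2| ≤ (1 + s ^ 4 + c ^ 2) * n := by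
    rw [abs_mul]
    refine mul_le_mul ?_ h2 (abs_nonneg _) (by positivity)
    rw [abs_le]
    constructor <;> nlinarith [sq_nonneg (c - s), sq_nonneg (c + s), sq_nonneg (s ^ 2 - 1)]
  have b1 : |c * s ^ 2 * a1| ≤ (1 + s ^ 4 + c ^ 2) * n := by
    rw [abs_mul]
    refine mul_le_mul ?_ h1 (abs_nonneg _) (by positivity)
    rw [abs_le]
    constructor <;> nlinarith [sq_nonneg (c - s ^ 2), sq_nonneg (c + s ^ 2)]
  have e : 4 * s ^ 3 * a0 + 2 * c * (a3 + s * a2 + s ^ 2 / 2 * a1) =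
      4 * s ^ 3 * a0 + 2 * c * a3 + 2 * c * s * a2 + c * s ^ 2 * a1 := by ring
  rw [e]
  have t := abs_add_le (4 * s ^ 3 * a0 + 2 * c * a3 + 2 * c * s * a2) (c * s ^ 2 * a1)
  have t2 := abs_add_le (4 * s ^ 3 * a0 + 2 * c * a3) (2 * c * s * a2)
  have t3 := abs_add_le (4 * s ^ 3 * a0) (2 * c * a3)
  nlinarith

lemma phi_bound (s q a0 a4 a5 n : ℝ) (h0 : |a0| ≤ n) (h4 : |a4| ≤ n)
    (h5 : |a5| ≤ n) :
    |(1 + s ^ 2 + q ^ 2)⁻¹ * (2 * s * a0 + 2 * q * (a5 + s * a4))| ≤ 3 * n := by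
  have hp : 0 < 1 + s ^ 2 + q ^ 2 := by positivity
  rw [abs_mul, abs_inv, abs_of_pos hp, inv_mul_le_iff₀ hp]
  have b0 : |2 * s * a0| ≤ (1 + s ^ 2 + q ^ 2) * n := by
    rw [abs_mul]
    refine mul_le_mul ?_ h0 (abs_nonneg _) (by positivity)
    rw [abs_le]
    constructor <;> nlinarith [sq_nonneg (s - 1), sq_nonneg (s + 1), sq_nonneg q]
  have b5 : |2 * q * a5| ≤ (1 + s ^ 2 + q ^ 2) * n := by
    rw [abs_mul]
    refine mul_le_mul ?_ h5 (abs_nonneg _) (by positivity)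
    rw [abs_le]
    constructor <;> nlinarith [sq_nonneg (q - 1), sq_nonneg (q + 1), sq_nonneg s]
  have b4 : |2 * q * s * a4| ≤ (1 + s ^ 2 + q ^ 2) * n := by
    rw [abs_mul]
    refine mul_le_mul ?_ h4 (abs_nonneg _) (by positivity)
    rw [abs_le]
    constructor <;> nlinarith [sq_nonneg (q - s), sq_nonneg (q + s)]
  have e : 2 * s * a0 + 2 * q * (a5 + s * a4) = 2 * s * a0 + 2 * q * a5 + 2 * q * s * a4 := by ring
  rw [e]
  have t := abs_add_le (2 * s * a0 + 2 * q * a5) (2 * q * s * a4)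
  have t2 := abs_add_le (2 * s * a0) (2 * q * a5)
  nlinarith

lemma abs_le_of_sq {a n b : ℝ} (hn : 0 ≤ n) (h : a ^ 2 ≤ b) (hb : n ^ 2 = b) : |a| ≤ n := by
  apply abs_le_of_sq_le_sq' _ hn |> fun h => abs_le.2 h
  rw [hb]; exact h

lemma shear_norm_aux (ε s c : ℝ) (hε : ε ^ 2 = 1) (v : E) (n : ℝ) (hn : 0 ≤ n)
    (h : n ^ 2 = B (A (-s) v) (A (-s) v)) :
    B (A (-s) (v + i5 (ε * ((1 + s ^ 4 + c ^ 2)⁻¹ * (4 * s ^ 3 * v 0 + 2 * c * v 3)))))
      (A (-s) (v + i5 (ε * ((1 + s ^ 4 + c ^ 2)⁻¹ * (4 * s ^ 3 * v 0 + 2 * c * v 3))))) ≤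
      (10 * n) ^ 2 := by
  set θ : E := A (-s) v with hθ
  obtain ⟨q0, q1, q2, q3, q4, q5⟩ := sq_le_B θ
  have hv : v = A s θ := by rw [hθ, A_A, add_neg_cancel, A_zero]
  have hv0 : v 0 = θ 0 := by rw [hv]; rfl
  have hv3 : v 3 = θ 3 + s * θ 2 + s ^ 2 / 2 * θ 1 := by
    conv_lhs => rw [hv]
    rfl
  set δ := (1 + s ^ 4 + c ^ 2)⁻¹ * (4 * s ^ 3 * v 0 + 2 * c * v 3) with hδ
  have hb : |δ| ≤ 7 * n := by
    rw [hδ, hv0, hv3]
    exact cfun_bound s c (θ 0) (θ 1) (θ 2) (θ 3) n (abs_le_of_sq hn q0 h)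
      (abs_le_of_sq hn q1 h) (abs_le_of_sq hn q2 h) (abs_le_of_sq hn q3 h)
  have hA : A (-s) (v + i5 (ε * δ)) = θ + i5 (ε * δ) := by
    rw [A_add, ← hθ]
    congr 1
    simp [A]
  rw [hA]
  have hB : B (θ + i5 (ε * δ)) (θ + i5 (ε * δ)) = B θ θ + 2 * (ε * δ) * θ 5 +
      (ε * δ) ^ 2 := by
    rw [B_apply, B_apply]
    simp
    ring
  have h5 := abs_le_of_sq hn q5 h
  have e1 : (ε * δ) ^ 2 = δ ^ 2 := by rw [mul_pow, hε, one_mul]
  have e2 : δ ^ 2 ≤ (7 * n) ^ 2 := by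
    rw [← sq_abs δ]
    exact pow_le_pow_left₀ (abs_nonneg _) hb 2
  rw [hB, ← h, e1]
  nlinarith [sq_nonneg (ε * δ - θ 5), sq_nonneg (ε * δ)]

lemma norm_mfderiv_shear_le (ε : ℝ) (hε : ε ^ 2 = 1) (x : N) (v : TangentSpace 𝓘(ℝ, E) x) :
    ‖mfderiv 𝓘(ℝ, E) 𝓘(ℝ, E) (shear ε) x v‖ ≤ 10 * ‖v‖ := by
  have hs : (shear ε x).co 0 = x.co 0 := shear_co0 ε x
  have h1 := norm_sq_eq (shear ε x) (mfderiv 𝓘(ℝ, E) 𝓘(ℝ, E) (shear ε) x v)
  rw [hs] at h1
  have h2 := shear_norm_aux ε (x.co 0) (x.co 3) hε v ‖v‖ (norm_nonneg _) (norm_sq_eq x v)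
  have h3 := mfderiv_shear ε x v
  have h4 : ‖mfderiv 𝓘(ℝ, E) 𝓘(ℝ, E) (shear ε) x v‖ ^ 2 ≤ (10 * ‖v‖) ^ 2 := by
    rw [h1]
    refine le_trans (le_of_eq ?_) h2
    exact congrArg (fun w : E => B (A (- x.co 0) w) (A (- x.co 0) w)) h3
  exact (abs_le_of_sq_le_sq' h4 (by positivity)).2

lemma enorm_le_of_norm_le {V W : Type*} [NormedAddCommGroup V] [NormedAddCommGroup W] (C : ℝ≥0)
    (v : V) (w : W) (h : ‖w‖ ≤ C * ‖v‖) : ‖w‖ₑ ≤ C * ‖v‖ₑ := by
  rw [← ofReal_norm, ← ofReal_norm]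
  refine (ENNReal.ofReal_le_ofReal h).trans (le_of_eq ?_)
  rw [ENNReal.ofReal_mul C.coe_nonneg, ENNReal.ofReal_coe_nnreal]

/-- the Riemannian distance of `N`, with values in `[0, ∞]` -/
def ed (x y : N) : ℝ≥0∞ := riemannianEDist 𝓘(ℝ, E) x y

lemma ed_shear_le (ε : ℝ) (hε : ε ^ 2 = 1) (x y : N) :
    ed (shear ε x) (shear ε y) ≤ (10 : ℝ≥0) * ed x y := by
  refine riemannianEDist_map_le (shear ε) (contMDiff_shear ε) 10 (by norm_num) ?_ x y
  intro x v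
  exact enorm_le_of_norm_le _ _ _ (norm_mfderiv_shear_le ε hε x v)

/-- the function `log (1 + t ^ 2 + q ^ 2)` -/
def phi (x : E) : ℝ := Real.log (1 + x 0 ^ 2 + x 5 ^ 2)

lemma phipos (x : E) : 0 < 1 + x 0 ^ 2 + x 5 ^ 2 := by positivity

lemma hasFDerivAt_phi (x : E) : HasFDerivAt phi
    ((1 + x 0 ^ 2 + x 5 ^ 2)⁻¹ • ((2 * x 0) • p0 + (2 * x 5) • p5)) x := by
  have h0 : HasFDerivAt (fun y : E => y 0) p0 x := p0.hasFDerivAt
  have h3 : HasFDerivAt (fun y : E => y 5) p5 x := p5.hasFDerivAt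
  have h : HasFDerivAt (fun y : E => 1 + y 0 ^ 2 + y 5 ^ 2) _ x :=
    ((hasFDerivAt_const (1 : ℝ) x).add (h0.pow 2)).add (h3.pow 2)
  have h' := h.log (phipos x).ne'
  refine h'.congr_fderiv ?_
  congr 1
  refine ContinuousLinearMap.ext fun v => ?_
  simp

lemma contDiff_phi : ContDiff ℝ 1 phi := by
  unfold phi
  apply ContDiff.log
  · fun_prop
  · exact fun x => (phipos x).ne'

/-- `phi` as a function on the group -/
def phiN (x : N) : ℝ := phi x.co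

lemma contMDiff_phiN : ContMDiff 𝓘(ℝ, E) 𝓘(ℝ, ℝ) 1 phiN := contDiff_phi.contMDiff

lemma mfderiv_phiN (x : N) (v : E) :
    (mfderiv 𝓘(ℝ, E) 𝓘(ℝ, ℝ) phiN x v : ℝ) = (1 + x.co 0 ^ 2 + x.co 5 ^ 2)⁻¹ *
      (2 * x.co 0 * v 0 + 2 * x.co 5 * v 5) := by
  have h : mfderiv 𝓘(ℝ, E) 𝓘(ℝ, ℝ) phi x.co = fderiv ℝ phi x.co := mfderiv_eq_fderiv
  rw [(hasFDerivAt_phi x.co).fderiv] at h
  have h2 := congrArg (fun L => (L v : ℝ)) h
  exact h2

lemma phi_norm_aux (s q : ℝ) (v : E) (n : ℝ) (hn : 0 ≤ n)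
    (h : n ^ 2 = B (A (-s) v) (A (-s) v)) :
    |(1 + s ^ 2 + q ^ 2)⁻¹ * (2 * s * v 0 + 2 * q * v 5)| ≤ 3 * n := by
  set θ : E := A (-s) v with hθ
  obtain ⟨q0, q1, q2, q3, q4, q5⟩ := sq_le_B θ
  have hv : v = A s θ := by rw [hθ, A_A, add_neg_cancel, A_zero]
  have hv0 : v 0 = θ 0 := by rw [hv]; rfl
  have hv5 : v 5 = θ 5 + s * θ 4 := by
    conv_lhs => rw [hv]
    rfl
  rw [hv0, hv5]
  exact phi_bound s q (θ 0) (θ 4) (θ 5) n (abs_le_of_sq hn q0 h)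
    (abs_le_of_sq hn q4 h) (abs_le_of_sq hn q5 h)

lemma edist_phi_le (x y : N) : edist (phiN x) (phiN y) ≤ (3 : ℝ≥0) * ed x y := by
  rw [IsRiemannianManifold.out (I := 𝓘(ℝ, ℝ)) (M := ℝ)]
  refine riemannianEDist_map_le phiN contMDiff_phiN 3 (by norm_num) ?_ x y
  intro x v
  apply enorm_le_of_norm_le
  have h1 := phi_norm_aux (x.co 0) (x.co 5) v ‖v‖ (norm_nonneg _) (norm_sq_eq x v)
  rw [norm_tangentSpace_vectorSpace]
  have h2 := mfderiv_phiN x v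
  refine le_trans (le_of_eq ?_) h1
  exact congrArg (fun r : ℝ => ‖r‖) h2

/-- distances are finite -/
lemma ed_ne_top (x y : N) : ed x y ≠ ⊤ := by
  have hconn : PreconnectedSpace N := inferInstanceAs (PreconnectedSpace E)
  have hclopen : IsClopen {z : N | ed x z ≠ ⊤} := by
    constructor
    · rw [← isOpen_compl_iff, isOpen_iff_mem_nhds]
      intro z hz
      have hz' : ed x z = ⊤ := by simpa using hz
      filter_upwards [eventually_riemannianEDist_lt 𝓘(ℝ, E) z (c := 1) one_pos] with w hw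
      have hw' : ed w z < 1 := by
        unfold ed
        rw [riemannianEDist_comm]
        exact hw
      simp only [mem_compl_iff, mem_ofPred_eq, not_not]
      by_contra hne
      have h1 : ed x z ≤ ed x w + ed w z := riemannianEDist_triangle
      rw [hz', top_le_iff, ENNReal.add_eq_top] at h1
      rcases h1 with h1 | h1
      · exact hne h1
      · rw [h1] at hw'
        exact absurd hw' (by simp)
    · rw [isOpen_iff_mem_nhds]
      intro z hz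
      filter_upwards [eventually_riemannianEDist_lt 𝓘(ℝ, E) z (c := 1) one_pos] with w hw
      have hw' : ed z w < 1 := hw
      have h1 : ed x w ≤ ed x z + ed z w := riemannianEDist_triangle
      refine ne_top_of_le_ne_top ?_ h1
      exact ENNReal.add_ne_top.2 ⟨hz, (hw'.trans ENNReal.one_lt_top).ne⟩
  have h := hclopen.eq_univ ⟨x, by
    simp only [mem_ofPred_eq]
    have : ed x x = 0 := riemannianEDist_self
    rw [this]
    simp⟩
  have : y ∈ {z : N | ed x z ≠ ⊤} := by rw [h]; trivial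
  exact this

/-- the Riemannian distance of `N` -/
def dR (x y : N) : ℝ := (ed x y).toReal

lemma dR_shear_le (ε : ℝ) (hε : ε ^ 2 = 1) (x y : N) :
    dR (shear ε x) (shear ε y) ≤ 10 * dR x y := by
  have h := ENNReal.toReal_mono (ENNReal.mul_ne_top ENNReal.coe_ne_top (ed_ne_top x y))
    (ed_shear_le ε hε x y)
  rw [ENNReal.toReal_mul] at h
  exact h

lemma abs_phi_le (x y : N) : |phiN x - phiN y| ≤ 3 * dR x y := by
  have h := ENNReal.toReal_mono (ENNReal.mul_ne_top ENNReal.coe_ne_top (ed_ne_top x y))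
    (edist_phi_le x y)
  rw [ENNReal.toReal_mul, edist_dist, ENNReal.toReal_ofReal dist_nonneg, Real.dist_eq] at h
  exact h

lemma shear_shear (ε : ℝ) (x : N) : shear (-ε) (shear ε x) = x := by
  have h : cfun (shear ε x).co = cfun x.co := by
    unfold cfun
    rw [shear_co0, shear_co3]
  apply ext'
  apply ext6E
  · rw [shear_co0, shear_co0]
  · rw [shear_co1, shear_co1]
  · rw [shear_co2, shear_co2]
  · rw [shear_co3, shear_co3]
  · rw [shear_co4, shear_co4]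
  · rw [shear_co5, shear_co5, h]
    ring

end N

end Pool.Agent.H463R3.NilGroup
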