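import Mathlib
import Pool.Agent.H463R3.NilQI

open scoped Manifold ContDiff ENNReal Topology NNReal
open Set MeasureTheory Manifold Bundle

noncomputable section

set_option linter.unusedSimpArgs false

namespace Pool.Agent.H463R3.NilGroup

namespace N

open Classical in
/-- The extended norm of a tangent vector at `x` for the Carnot structure: the Riemannian norm
for a horizontal vector (one whose left translate to the identity lies in the first stratum),
and infinity for the other vectors. -/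
@[instance_reducible]
def ccENorm (x : N) : ENorm (TangentSpace 𝓘(ℝ, E) x) :=
  ⟨fun v => if A (- x.co 0) v ∈ strat 1 then ‖v‖ₑ else ⊤⟩

/-- The Carnot-Caratheodory distance of `N`, with values in `[0, ∞]`: the infimum of the lengths
of `C^1` paths for the Carnot norm. -/
def ecc (x y : N) : ℝ≥0∞ :=
  letI := ccENorm
  riemannianEDist 𝓘(ℝ, E) x y

lemma le_ccENorm (x : N) (v : TangentSpace 𝓘(ℝ, E) x) : ‖v‖ₑ ≤ (ccENorm x).enorm v := by
  unfold ccENorm
  simp only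
  split_ifs
  · exact le_rfl
  · exact le_top

lemma ed_le_ecc (x y : N) : ed x y ≤ ecc x y := by
  have h := @riemannianEDist_map_le E _ _ E _ 𝓘(ℝ, E) N _ _ E _ _ E _ 𝓘(ℝ, E) N _ _ ccENorm _
    id contMDiff_id 1 one_ne_zero (by
      intro x v
      rw [mfderiv_id]
      simp only [ENNReal.coe_one, one_mul]
      exact le_ccENorm x v) x y
  unfold ed ecc
  simpa using h

lemma ccENorm_of_mem (x : N) (v : TangentSpace 𝓘(ℝ, E) x) (h : A (- x.co 0) v ∈ strat 1) :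
    (ccENorm x).enorm v = ‖v‖ₑ := by
  unfold ccENorm
  simp only
  rw [if_pos h]

lemma ccENorm_of_not_mem (x : N) (v : TangentSpace 𝓘(ℝ, E) x) (h : A (- x.co 0) v ∉ strat 1) :
    (ccENorm x).enorm v = ⊤ := by
  unfold ccENorm
  simp only
  rw [if_neg h]

lemma A_smulT (x : N) (c : ℝ) (v : TangentSpace 𝓘(ℝ, E) x) :
    A (- x.co 0) (c • v) = c • (A (- x.co 0) v) := A_smul _ _ _

lemma enorm_smul_std (x : N) (c : ℝ) (v : TangentSpace 𝓘(ℝ, E) x) :
    ‖c • v‖ₑ = ‖c‖ₑ * ‖v‖ₑ := enorm_smul _ _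

lemma enorm_zero_std (x : N) : ‖(0 : TangentSpace 𝓘(ℝ, E) x)‖ₑ = 0 := enorm_zero

lemma ccSMul (x : N) : @ENormSMulClass ℝ (TangentSpace 𝓘(ℝ, E) x) _ (ccENorm x) _ := by
  let := ccENorm x
  constructor
  intro c v
  by_cases hc : c = 0
  · subst hc
    rw [enorm_zero, zero_mul]
    have h0 : A (- x.co 0) ((0 : ℝ) • v) ∈ strat 1 := by
      rw [A_smulT, zero_smul]
      exact Submodule.zero_mem _
    rw [ccENorm_of_mem x _ h0, zero_smul, enorm_zero_std]
  · by_cases h : A (- x.co 0) v ∈ strat 1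
    · have h' : A (- x.co 0) (c • v) ∈ strat 1 := by
        rw [A_smulT]
        exact Submodule.smul_mem _ _ h
      rw [ccENorm_of_mem x _ h, ccENorm_of_mem x _ h', enorm_smul_std]
    · have h' : A (- x.co 0) (c • v) ∉ strat 1 := by
        rw [A_smulT]
        intro h2
        apply h
        have := Submodule.smul_mem _ c⁻¹ h2
        rwa [smul_smul, inv_mul_cancel₀ hc, one_smul] at this
      rw [ccENorm_of_not_mem x _ h, ccENorm_of_not_mem x _ h', ENNReal.mul_top]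
      simpa using hc

lemma ecc_triangle (x y z : N) : ecc x z ≤ ecc x y + ecc y z := by
  let := ccENorm
  have := ccSMul
  exact riemannianEDist_triangle

lemma ecc_comm (x y : N) : ecc x y = ecc y x := by
  let := ccENorm
  have := ccSMul
  exact riemannianEDist_comm

lemma ecc_self (x : N) : ecc x x = 0 := by
  let := ccENorm
  have := ccSMul
  exact riemannianEDist_self

lemma mem_strat_left (g x : N) (v : TangentSpace 𝓘(ℝ, E) x) :
    A (- (g * x).co 0) (mfderiv 𝓘(ℝ, E) 𝓘(ℝ, E) (fun z : N => g * z) x v : E) =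
      A (- x.co 0) v := by
  have h : (mfderiv 𝓘(ℝ, E) 𝓘(ℝ, E) (fun z : N => g * z) x v : E) = A (g.co 0) v := by
    rw [mfderiv_mul_left]
    rfl
  refine (congrArg (A (- (g * x).co 0)) h).trans ?_
  refine (A_A _ _ _).trans ?_
  rw [co0_mul]
  congr 1
  ring

lemma norm_left (g x : N) (v : TangentSpace 𝓘(ℝ, E) x) :
    ‖mfderiv 𝓘(ℝ, E) 𝓘(ℝ, E) (fun z : N => g * z) x v‖ = ‖v‖ := by
  have h := inner_left_invariant g x v v
  rw [real_inner_self_eq_norm_sq, real_inner_self_eq_norm_sq] at h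
  exact (sq_eq_sq₀ (norm_nonneg _) (norm_nonneg _)).1 h

lemma ccENorm_left (g x : N) (v : TangentSpace 𝓘(ℝ, E) x) :
    (ccENorm (g * x)).enorm (mfderiv 𝓘(ℝ, E) 𝓘(ℝ, E) (fun z : N => g * z) x v) =
      (ccENorm x).enorm v := by
  have e := mem_strat_left g x v
  have n : ‖mfderiv 𝓘(ℝ, E) 𝓘(ℝ, E) (fun z : N => g * z) x v‖ₑ = ‖v‖ₑ := by
    rw [← ofReal_norm, ← ofReal_norm, norm_left]
  by_cases h : A (- x.co 0) v ∈ strat 1
  · rw [ccENorm_of_mem x v h, ccENorm_of_mem, n]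
    rw [← e] at h
    exact h
  · rw [ccENorm_of_not_mem x v h, ccENorm_of_not_mem]
    rw [← e] at h
    exact h

lemma contMDiff_mul_leftN (g : N) : ContMDiff 𝓘(ℝ, E) 𝓘(ℝ, E) 1 (fun z : N => g * z) := by
  have : ContDiff ℝ 1 (fun z : E => g.co + A (g.co 0) z) :=
    contDiff_const.add (contDiff_A' _ _ contDiff_const contDiff_id)
  exact this.contMDiff

lemma ecc_mul_left_le (g x y : N) : ecc (g * x) (g * y) ≤ ecc x y := by
  have h := @riemannianEDist_map_le E _ _ E _ 𝓘(ℝ, E) N _ _ E _ _ E _ 𝓘(ℝ, E) N _ _ ccENorm ccENorm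
    (fun z => g * z) (contMDiff_mul_leftN g) 1 one_ne_zero (by
      intro x v
      simp only [ENNReal.coe_one, one_mul]
      exact (ccENorm_left g x v).le) x y
  unfold ecc
  simpa using h

lemma ecc_mul_left (g x y : N) : ecc (g * x) (g * y) = ecc x y := by
  apply le_antisymm (ecc_mul_left_le g x y)
  have := ecc_mul_left_le g⁻¹ (g * x) (g * y)
  simpa using this

lemma mfderiv_line (u : E) (t : ℝ) :
    (mfderiv 𝓘(ℝ, ℝ) 𝓘(ℝ, E) (fun t : ℝ => (of (t • u) : N)) t (1 : ℝ) : E) = u := by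
  have h1 : HasFDerivAt (fun t : ℝ => t • u) (ContinuousLinearMap.toSpanSingleton ℝ u) t :=
    (ContinuousLinearMap.toSpanSingleton ℝ u).hasFDerivAt
  have h2 : mfderiv 𝓘(ℝ, ℝ) 𝓘(ℝ, E) (fun t : ℝ => t • u) t =
    fderiv ℝ (fun t : ℝ => t • u) t := mfderiv_eq_fderiv
  rw [h1.fderiv] at h2
  have h3 := congrArg (fun L => (L (1 : ℝ) : E)) h2
  refine Eq.trans h3 ?_
  exact one_smul ℝ u

/-- one parameter horizontal segments -/
lemma ecc_one_line (u : E) (hu : ∀ t : ℝ, A (- (t * u 0)) u = u) (hu1 : u ∈ strat 1) :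
    ecc 1 (of u) ≤ ENNReal.ofReal (Real.sqrt (B u u)) := by
  let := ccENorm
  have := ccSMul
  have hγ : ContMDiff 𝓘(ℝ, ℝ) 𝓘(ℝ, E) 1 (fun t : ℝ => (of (t • u) : N)) := by
    have : ContDiff ℝ 1 (fun t : ℝ => t • u) := by fun_prop
    exact this.contMDiff
  have h := riemannianEDist_le_pathELength (I := 𝓘(ℝ, E)) (γ := fun t : ℝ => (of (t • u) : N))
    (x := 1) (y := of u) (a := 0) (b := 1) hγ.contMDiffOn (by simp; rfl) (by simp) zero_le_one
  refine h.trans ?_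
  rw [pathELength_eq_lintegral_mfderiv_Icc]
  have key : ∀ t : ℝ, (ccENorm (of (t • u))).enorm
      (mfderiv 𝓘(ℝ, ℝ) 𝓘(ℝ, E) (fun t : ℝ => (of (t • u) : N)) t (1 : ℝ)) =
      ENNReal.ofReal (Real.sqrt (B u u)) := by
    intro t
    have e1 : (A (- (of (t • u) : N).co 0)
      (mfderiv 𝓘(ℝ, ℝ) 𝓘(ℝ, E) (fun t : ℝ => (of (t • u) : N)) t (1 : ℝ) : E)) = u :=
      (congrArg (A (- (of (t • u) : N).co 0)) (mfderiv_line u t)).trans (hu t)
    rw [ccENorm_of_mem _ _ (by rw [e1]; exact hu1), ← ofReal_norm]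
    congr 1
    rw [← Real.sqrt_sq (norm_nonneg _), norm_sq_eq]
    exact congrArg (fun v : E => Real.sqrt (B v v)) e1
  refine (lintegral_mono (fun t => (key t).le)).trans ?_
  simp

lemma ecc_line0 (s : ℝ) : ecc 1 (of ![s, 0, 0, 0, 0, 0]) ≤ ENNReal.ofReal |s| := by
  have h := ecc_one_line ![s, 0, 0, 0, 0, 0] (by intro t; simp [A]) (by simp [mem_strat])
  refine h.trans (ENNReal.ofReal_le_ofReal (le_of_eq ?_))
  rw [B_apply]
  simp [Real.sqrt_mul_self_eq_abs]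

lemma ecc_line1 (s : ℝ) : ecc 1 (of ![0, s, 0, 0, 0, 0]) ≤ ENNReal.ofReal |s| := by
  have h := ecc_one_line ![0, s, 0, 0, 0, 0] (by intro t; simp [A]) (by simp [mem_strat])
  refine h.trans (ENNReal.ofReal_le_ofReal (le_of_eq ?_))
  rw [B_apply]
  simp [Real.sqrt_mul_self_eq_abs]

lemma ecc_line4 (s : ℝ) : ecc 1 (of ![0, 0, 0, 0, s, 0]) ≤ ENNReal.ofReal |s| := by
  have h := ecc_one_line ![0, 0, 0, 0, s, 0] (by intro t; simp [A]) (by simp [mem_strat])
  refine h.trans (ENNReal.ofReal_le_ofReal (le_of_eq ?_))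
  rw [B_apply]
  simp [Real.sqrt_mul_self_eq_abs]

lemma ecc_one_mul (x y : N) : ecc 1 (x * y) ≤ ecc 1 x + ecc 1 y := by
  refine (ecc_triangle 1 x (x * y)).trans ?_
  have := ecc_mul_left x 1 y
  rw [mul_one] at this
  rw [this]

lemma ecc_one_inv (x : N) : ecc 1 x⁻¹ = ecc 1 x := by
  have := ecc_mul_left x 1 x⁻¹
  rw [mul_one, mul_inv_cancel] at this
  rw [← this, ecc_comm]

/-- the subgroup of elements at finite distance from the identity -/
def fin : Subgroup N where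
  carrier := {x | ecc 1 x ≠ ⊤}
  mul_mem' := by
    intro x y hx hy
    exact ne_top_of_le_ne_top (ENNReal.add_ne_top.2 ⟨hx, hy⟩) (ecc_one_mul x y)
  one_mem' := by
    change ecc 1 1 ≠ ⊤
    rw [ecc_self]
    simp
  inv_mem' := by
    intro x hx
    change ecc 1 x⁻¹ ≠ ⊤
    rw [ecc_one_inv]
    exact hx

lemma mem_fin0 (s : ℝ) : (of ![s, 0, 0, 0, 0, 0] : N) ∈ fin :=
  ne_top_of_le_ne_top ENNReal.ofReal_ne_top (ecc_line0 s)
lemma mem_fin1 (s : ℝ) : (of ![0, s, 0, 0, 0, 0] : N) ∈ fin :=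
  ne_top_of_le_ne_top ENNReal.ofReal_ne_top (ecc_line1 s)
lemma mem_fin4 (s : ℝ) : (of ![0, 0, 0, 0, s, 0] : N) ∈ fin :=
  ne_top_of_le_ne_top ENNReal.ofReal_ne_top (ecc_line4 s)

/-- commutators with the first one-parameter subgroup -/
lemma comm_fin {v : E} (hv : v 0 = 0) (h : (of v : N) ∈ fin) :
    (of ![0, 0, v 1, v 2 + v 1 / 2, 0, v 4] : N) ∈ fin := by
  have e : (of ![0, 0, v 1, v 2 + v 1 / 2, 0, v 4] : N) =
      of ![1, 0, 0, 0, 0, 0] * of v * (of ![1, 0, 0, 0, 0, 0])⁻¹ * (of v)⁻¹ := by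
    apply ext6
    · simp only [co0_mul, co0_inv, co_of, m0, m1, m2, m3, m4, m5, hv]; ring
    · simp only [co1_mul, co1_inv, co_of, m0, m1, m2, m3, m4, m5]; ring
    · simp only [co2_mul, co2_inv, co1_mul, co1_inv, co0_mul, co0_inv, co_of, m0, m1, m2, m3, m4, m5, hv]; ring
    · simp only [co3_mul, co3_inv, co2_mul, co2_inv, co1_mul, co1_inv, co0_mul, co0_inv, co_of, m0, m1, m2, m3, m4, m5, hv]
      ring
    · simp only [co4_mul, co4_inv, co_of, m0, m1, m2, m3, m4, m5]; ring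
    · simp only [co5_mul, co5_inv, co4_mul, co4_inv, co0_mul, co0_inv, co_of, m0, m1, m2, m3, m4, m5, hv]
      ring
  rw [e]
  exact fin.mul_mem (fin.mul_mem (fin.mul_mem (mem_fin0 1) h) (fin.inv_mem (mem_fin0 1)))
    (fin.inv_mem h)

lemma fin_top (x : N) : x ∈ fin := by
  have k5 : ∀ q : ℝ, (of ![0, 0, 0, 0, 0, q] : N) ∈ fin := by
    intro q
    have := comm_fin (v := ![0, 0, 0, 0, q, 0]) rfl (mem_fin4 q)
    simpa using this
  have k23 : ∀ b : ℝ, (of ![0, 0, b, b / 2, 0, 0] : N) ∈ fin := by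
    intro b
    have := comm_fin (v := ![0, b, 0, 0, 0, 0]) rfl (mem_fin1 b)
    simpa using this
  have k3 : ∀ c : ℝ, (of ![0, 0, 0, c, 0, 0] : N) ∈ fin := by
    intro c
    have := comm_fin (v := ![0, 0, c, c / 2, 0, 0]) rfl (k23 c)
    simpa using this
  have e : x = of ![0, x.co 1, 0, 0, 0, 0] * of ![0, 0, x.co 2, x.co 2 / 2, 0, 0] *
      of ![0, 0, 0, x.co 3 - x.co 2 / 2, 0, 0] * of ![0, 0, 0, 0, x.co 4, 0] *
      of ![0, 0, 0, 0, 0, x.co 5] * of ![x.co 0, 0, 0, 0, 0, 0] := by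
    apply ext6
    · simp only [co0_mul, co_of, m0, m1, m2, m3, m4, m5]; ring
    · simp only [co1_mul, co_of, m0, m1, m2, m3, m4, m5]; ring
    · simp only [co2_mul, co1_mul, co0_mul, co_of, m0, m1, m2, m3, m4, m5]; ring
    · simp only [co3_mul, co2_mul, co1_mul, co0_mul, co_of, m0, m1, m2, m3, m4, m5]
      ring
    · simp only [co4_mul, co_of, m0, m1, m2, m3, m4, m5]; ring
    · simp only [co5_mul, co4_mul, co0_mul, co_of, m0, m1, m2, m3, m4, m5]
      ring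
  rw [e]
  exact fin.mul_mem (fin.mul_mem (fin.mul_mem (fin.mul_mem (fin.mul_mem (mem_fin1 _) (k23 _))
    (k3 _)) (mem_fin4 _)) (k5 _)) (mem_fin0 _)

lemma ecc_ne_top (x y : N) : ecc x y ≠ ⊤ := by
  have := ecc_mul_left x⁻¹ x y
  rw [inv_mul_cancel] at this
  rw [← this]
  exact fin_top (x⁻¹ * y)

/-- the Carnot-Caratheodory distance of `N` -/
def dC (x y : N) : ℝ := (ecc x y).toReal

lemma dR_le_dC (x y : N) : dR x y ≤ dC x y :=
  ENNReal.toReal_mono (ecc_ne_top x y) (ed_le_ecc x y)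

lemma dC_triangle (x y z : N) : dC x z ≤ dC x y + dC y z := by
  unfold dC
  rw [← ENNReal.toReal_add (ecc_ne_top _ _) (ecc_ne_top _ _)]
  exact ENNReal.toReal_mono (ENNReal.add_ne_top.2 ⟨ecc_ne_top _ _, ecc_ne_top _ _⟩)
    (ecc_triangle x y z)

lemma dC_comm (x y : N) : dC x y = dC y x := by unfold dC; rw [ecc_comm]

lemma dC_mul_left (g x y : N) : dC (g * x) (g * y) = dC x y := by
  unfold dC; rw [ecc_mul_left]

lemma dC_one_mul (x y : N) : dC 1 (x * y) ≤ dC 1 x + dC 1 y := by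
  refine (dC_triangle 1 x (x * y)).trans ?_
  have := dC_mul_left x 1 y
  rw [mul_one] at this
  rw [this]

lemma dC_one_inv (x : N) : dC 1 x⁻¹ = dC 1 x := by
  unfold dC; rw [ecc_one_inv]

lemma dC_line0 (s : ℝ) : dC 1 (of ![s, 0, 0, 0, 0, 0]) ≤ |s| := by
  have := ENNReal.toReal_mono ENNReal.ofReal_ne_top (ecc_line0 s)
  rwa [ENNReal.toReal_ofReal (abs_nonneg s)] at this

lemma dC_line4 (s : ℝ) : dC 1 (of ![0, 0, 0, 0, s, 0]) ≤ |s| := by
  have := ENNReal.toReal_mono ENNReal.ofReal_ne_top (ecc_line4 s)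
  rwa [ENNReal.toReal_ofReal (abs_nonneg s)] at this

/-- the central direction `Y` is at most linearly distorted -/
lemma dC_Y (s : ℝ) : dC 1 (of ![0, 0, 0, 0, 0, s]) ≤ 2 + 2 * |s| := by
  have e : (of ![0, 0, 0, 0, 0, s] : N) =
      of ![1, 0, 0, 0, 0, 0] * of ![0, 0, 0, 0, s, 0] * (of ![1, 0, 0, 0, 0, 0])⁻¹ *
        (of ![0, 0, 0, 0, s, 0])⁻¹ := by
    apply ext6
    · simp only [co0_mul, co0_inv, co_of, m0, m1, m2, m3, m4, m5]; ring
    · simp only [co1_mul, co1_inv, co_of, m0, m1, m2, m3, m4, m5]; ring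
    · simp only [co2_mul, co2_inv, co1_mul, co1_inv, co0_mul, co0_inv, co_of, m0, m1, m2, m3, m4, m5]; ring
    · simp only [co3_mul, co3_inv, co2_mul, co2_inv, co1_mul, co1_inv, co0_mul, co0_inv, co_of, m0, m1, m2, m3, m4, m5]
      ring
    · simp only [co4_mul, co4_inv, co_of, m0, m1, m2, m3, m4, m5]; ring
    · simp only [co5_mul, co5_inv, co4_mul, co4_inv, co0_mul, co0_inv, co_of, m0, m1, m2, m3, m4, m5]
      ring
  rw [e]
  have h1 := dC_one_mul (of ![1, 0, 0, 0, 0, 0] * of ![0, 0, 0, 0, s, 0] *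
    (of ![1, 0, 0, 0, 0, 0])⁻¹) (of ![0, 0, 0, 0, s, 0])⁻¹
  have h2 := dC_one_mul (of ![1, 0, 0, 0, 0, 0] * of ![0, 0, 0, 0, s, 0])
    (of ![1, 0, 0, 0, 0, 0])⁻¹
  have h3 := dC_one_mul (of ![1, 0, 0, 0, 0, 0]) (of ![0, 0, 0, 0, s, 0])
  rw [dC_one_inv] at h1 h2
  have h4 := dC_line0 1
  have h5 := dC_line4 s
  rw [abs_one] at h4
  linarith

lemma central_Y (x : N) (s : ℝ) : x * of ![0, 0, 0, 0, 0, s] = of ![0, 0, 0, 0, 0, s] * x := by
  rw [commute_iff]
  simp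

lemma shear_eq (ε : ℝ) (x : N) : shear ε x = x * of ![0, 0, 0, 0, 0, ε * cfun x.co] := by
  apply ext'
  rw [co_mul, co_of]
  unfold shear
  rw [co_of]
  congr 1
  simp [A]

/-- `cfun` as a function on the group -/
def cfunN (x : N) : ℝ := cfun x.co

lemma contMDiff_cfunN : ContMDiff 𝓘(ℝ, E) 𝓘(ℝ, ℝ) 1 cfunN := contDiff_cfun.contMDiff

/-- `cfun` as a function on the group is Lipschitz -/
lemma abs_cfun_le (x y : N) : |cfun x.co - cfun y.co| ≤ 7 * dR x y := by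
  have hle : edist (cfun x.co) (cfun y.co) ≤ (7 : ℝ≥0) * ed x y := by
    rw [IsRiemannianManifold.out (I := 𝓘(ℝ, ℝ)) (M := ℝ)]
    refine riemannianEDist_map_le cfunN contMDiff_cfunN 7 (by norm_num) ?_ x y
    intro x v
    apply enorm_le_of_norm_le
    rw [norm_tangentSpace_vectorSpace]
    have h : mfderiv 𝓘(ℝ, E) 𝓘(ℝ, ℝ) cfun x.co = fderiv ℝ cfun x.co := mfderiv_eq_fderiv
    rw [(hasFDerivAt_cfun x.co).fderiv] at h
    have h2 := congrArg (fun L => (L v : ℝ)) h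
    have h1 : ∀ (v : E) (n : ℝ), 0 ≤ n → n ^ 2 = B (A (- x.co 0) v) (A (- x.co 0) v) →
        |(1 + x.co 0 ^ 4 + x.co 3 ^ 2)⁻¹ * (4 * x.co 0 ^ 3 * v 0 +
          2 * x.co 3 * v 3)| ≤ 7 * n := by
      intro v n hn h
      set θ : E := A (- x.co 0) v with hθ
      obtain ⟨q0, q1, q2, q3, q4, q5⟩ := sq_le_B θ
      have hv : v = A (x.co 0) θ := by rw [hθ, A_A, add_neg_cancel, A_zero]
      have hv0 : v 0 = θ 0 := by rw [hv]; rfl
      have hv3 : v 3 = θ 3 + x.co 0 * θ 2 + x.co 0 ^ 2 / 2 * θ 1 := by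
        conv_lhs => rw [hv]
        rfl
      rw [hv0, hv3]
      exact cfun_bound _ _ (θ 0) (θ 1) (θ 2) (θ 3) n (abs_le_of_sq hn q0 h)
        (abs_le_of_sq hn q1 h) (abs_le_of_sq hn q2 h) (abs_le_of_sq hn q3 h)
    refine le_trans (le_of_eq ?_) (h1 v ‖v‖ (norm_nonneg _) (norm_sq_eq x v))
    exact congrArg (fun r : ℝ => ‖r‖) h2
  have h := ENNReal.toReal_mono (ENNReal.mul_ne_top ENNReal.coe_ne_top (ed_ne_top x y)) hle
  rw [ENNReal.toReal_mul, edist_dist, ENNReal.toReal_ofReal dist_nonneg, Real.dist_eq] at h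
  exact h

lemma dC_shear_le (ε : ℝ) (hε : |ε| = 1) (x y : N) :
    dC (shear ε x) (shear ε y) ≤ 15 * dC x y + 2 := by
  rw [shear_eq, shear_eq]
  have h1 := dC_triangle (x * of ![0, 0, 0, 0, 0, ε * cfun x.co])
    (y * of ![0, 0, 0, 0, 0, ε * cfun x.co]) (y * of ![0, 0, 0, 0, 0, ε * cfun y.co])
  have h2 : dC (x * of ![0, 0, 0, 0, 0, ε * cfun x.co]) (y * of ![0, 0, 0, 0, 0, ε * cfun x.co]) =
      dC x y := by
    rw [central_Y, central_Y, dC_mul_left]
  have h3 : dC (y * of ![0, 0, 0, 0, 0, ε * cfun x.co]) (y * of ![0, 0, 0, 0, 0, ε * cfun y.co]) =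
      dC 1 (of ![0, 0, 0, 0, 0, ε * (cfun y.co - cfun x.co)]) := by
    have e : y * of ![0, 0, 0, 0, 0, ε * cfun y.co] = (y * of ![0, 0, 0, 0, 0, ε * cfun x.co]) *
        of ![0, 0, 0, 0, 0, ε * (cfun y.co - cfun x.co)] := by
      rw [mul_assoc]
      congr 1
      apply ext6 <;> simp [co_mul, A] <;> ring
    rw [e]
    have := dC_mul_left (y * of ![0, 0, 0, 0, 0, ε * cfun x.co]) 1
      (of ![0, 0, 0, 0, 0, ε * (cfun y.co - cfun x.co)])
    rwa [mul_one] at this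
  have h4 := dC_Y (ε * (cfun y.co - cfun x.co))
  rw [abs_mul, hε, one_mul, abs_sub_comm] at h4
  have h5 := abs_cfun_le x y
  have h6 := dR_le_dC x y
  rw [h2, h3] at h1
  linarith

end N

end Pool.Agent.H463R3.NilGroup
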