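import Mathlib
import Pool.Agent.H463R3.NilLie

open scoped Topology

noncomputable section

namespace Pool.Agent.H463R3.NilGroup

namespace N

/-- The left translate to the identity of the velocity of the path `γ` at time `t`. -/
def vel (γ : ℝ → E) (t : ℝ) : E := A (- γ t 0) (deriv γ t)

/-- The length of the path `γ` on `[0, 1]` for the left-invariant Riemannian metric of `N` that is
the standard inner product of `R^6` at the identity. -/
def len (γ : ℝ → E) : ℝ := ∫ t in (0 : ℝ)..1, Real.sqrt (∑ i, vel γ t i ^ 2)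

/-- The lengths of the `C^1` paths from `x` to `y`. -/
def lengths (x y : N) : Set ℝ :=
  {l | ∃ γ : ℝ → E, ContDiff ℝ 1 γ ∧ γ 0 = x.co ∧ γ 1 = y.co ∧ len γ = l}

/-- The lengths of the horizontal `C^1` paths from `x` to `y`, those whose velocity always lies in
the left translate of the first stratum. -/
def hlengths (x y : N) : Set ℝ :=
  {l | ∃ γ : ℝ → E, ContDiff ℝ 1 γ ∧ γ 0 = x.co ∧ γ 1 = y.co ∧
    (∀ t ∈ Set.Icc (0 : ℝ) 1, vel γ t ∈ strat 1) ∧ len γ = l}

/-- The left-invariant Riemannian distance of `N`. -/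
def d (x y : N) : ℝ := sInf (lengths x y)

/-- The Carnot-Caratheodory distance of `N`. -/
def dcc (x y : N) : ℝ := sInf (hlengths x y)

end N

/-- `f` is a quasiisometry of `X` for the distance function `d`. -/
def IsQuasiisometry {X : Type} (d : X → X → ℝ) (f : X → X) : Prop :=
  ∃ L C : ℝ, 1 ≤ L ∧ 0 ≤ C ∧
    (∀ x y : X, L⁻¹ * d x y - C ≤ d (f x) (f y) ∧ d (f x) (f y) ≤ L * d x y + C) ∧
    ∀ y : X, ∃ x : X, d y (f x) ≤ C

/-- The Hausdorff distance of `S` and `T` for the distance function `d` is at most `D`. -/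
def HausdorffLe {X : Type} (d : X → X → ℝ) (D : ℝ) (S T : Set X) : Prop :=
  (∀ x ∈ S, ∀ ε > 0, ∃ y ∈ T, d x y ≤ D + ε) ∧ (∀ y ∈ T, ∀ ε > 0, ∃ x ∈ S, d x y ≤ D + ε)

/-- `f` coarsely permutes the left cosets of the subgroup `K` of `G`: there is `D` such that for
every `g` there is `h` with `f (g K)` at Hausdorff distance at most `D` from `h K`. -/
def CoarselyPermutes {G : Type} [Group G] (d : G → G → ℝ) (f : G → G) (K : Subgroup G) : Prop :=
  ∃ D : ℝ, ∀ g : G, ∃ h : G, HausdorffLe d D {y | ∃ k ∈ K, f (g * k) = y} {y | ∃ k ∈ K, h * k = y}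

end Pool.Agent.H463R3.NilGroup
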