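import Mathlib
import Pool.Agent.H463R3.NilCC
import Pool.Agent.H463R3.NilDef

open scoped Manifold ContDiff ENNReal Topology NNReal
open Set MeasureTheory Manifold Bundle

noncomputable section

namespace Pool.Agent.H463R3.NilGroup

namespace N

lemma B_eq_sum (w : E) : B w w = ∑ i, w i ^ 2 := by
  rw [B_apply, Fin.sum_univ_six]
  ring

/-- the speed -/
def sp (γ : ℝ → E) (t : ℝ) : ℝ := Real.sqrt (∑ i, vel γ t i ^ 2)

lemma continuous_vel {γ : ℝ → E} (hγ : ContDiff ℝ 1 γ) : Continuous (vel γ) := by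
  unfold vel
  have h1 : Continuous γ := hγ.continuous
  have h2 : Continuous (deriv γ) := hγ.continuous_deriv le_rfl
  have hA : Continuous (fun p : ℝ × E => A p.1 p.2) :=
    (contDiff_A' (n := 0) Prod.fst Prod.snd contDiff_fst contDiff_snd).continuous
  have h3 : Continuous (fun t => (- γ t 0, deriv γ t)) :=
    (((continuous_apply 0).comp h1).neg).prodMk h2
  exact hA.comp h3

lemma continuous_sp {γ : ℝ → E} (hγ : ContDiff ℝ 1 γ) : Continuous (sp γ) := by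
  unfold sp
  have h := continuous_vel hγ
  fun_prop

lemma mfderiv_one (γ : ℝ → E) (t : ℝ) :
    (mfderiv 𝓘(ℝ, ℝ) 𝓘(ℝ, E) (fun s => (of (γ s) : N)) t (1 : ℝ) : E) = deriv γ t := by
  have h2 : mfderiv 𝓘(ℝ, ℝ) 𝓘(ℝ, E) γ t = fderiv ℝ γ t := mfderiv_eq_fderiv
  have h3 := congrArg (fun L => (L (1 : ℝ) : E)) h2
  exact h3

lemma enorm_eq (x : N) (v : TangentSpace 𝓘(ℝ, E) x) :
    ‖v‖ₑ = ENNReal.ofReal (Real.sqrt (B (A (- x.co 0) v) (A (- x.co 0) v))) := by
  rw [← ofReal_norm, ← norm_sq_eq, Real.sqrt_sq (norm_nonneg _)]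

lemma enorm_path (γ : ℝ → E) (t : ℝ) :
    ‖mfderiv 𝓘(ℝ, ℝ) 𝓘(ℝ, E) (fun s => (of (γ s) : N)) t (1 : ℝ)‖ₑ =
      ENNReal.ofReal (sp γ t) := by
  rw [enorm_eq]
  congr 2
  rw [← B_eq_sum]
  have h := mfderiv_one γ t
  exact congrArg (fun w : E => B (A (- γ t 0) w) (A (- γ t 0) w)) h

lemma lintegral_sp {γ : ℝ → E} (hγ : ContDiff ℝ 1 γ) :
    ∫⁻ t in Icc (0 : ℝ) 1, ENNReal.ofReal (sp γ t) = ENNReal.ofReal (len γ) := by
  have hc := continuous_sp hγ
  rw [← restrict_Ioc_eq_restrict_Icc]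
  unfold len
  rw [intervalIntegral.integral_of_le zero_le_one]
  rw [← ofReal_integral_eq_lintegral_ofReal]
  · rfl
  · exact (hc.integrableOn_Icc (a := 0) (b := 1)).mono_set Ioc_subset_Icc_self
  · exact Filter.Eventually.of_forall fun t => Real.sqrt_nonneg _

lemma pathELength_eq {γ : ℝ → E} (hγ : ContDiff ℝ 1 γ) :
    pathELength 𝓘(ℝ, E) (fun s => (of (γ s) : N)) 0 1 = ENNReal.ofReal (len γ) := by
  rw [pathELength_eq_lintegral_mfderiv_Icc, ← lintegral_sp hγ]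
  exact lintegral_congr fun t => enorm_path γ t

lemma len_nonneg (γ : ℝ → E) : 0 ≤ len γ := by
  unfold len
  exact intervalIntegral.integral_nonneg zero_le_one fun t _ => Real.sqrt_nonneg _

lemma d_eq (x y : N) : d x y = dR x y := by
  have hlow : ∀ l ∈ lengths x y, dR x y ≤ l := by
    rintro l ⟨γ, hγ, h0, h1, rfl⟩
    have hm : ContMDiff 𝓘(ℝ, ℝ) 𝓘(ℝ, E) 1 (fun s => (of (γ s) : N)) := hγ.contMDiff
    have h : ed x y ≤ _ := riemannianEDist_le_pathELength (I := 𝓘(ℝ, E)) (a := 0) (b := 1)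
      hm.contMDiffOn (ext' h0) (ext' h1) zero_le_one
    rw [pathELength_eq hγ] at h
    have := ENNReal.toReal_mono ENNReal.ofReal_ne_top h
    rwa [ENNReal.toReal_ofReal (len_nonneg γ)] at this
  have hup : ∀ r, dR x y < r → ∃ l ∈ lengths x y, l < r := by
    intro r hr
    have hr' : ed x y < ENNReal.ofReal r := (ENNReal.lt_ofReal_iff_toReal_lt (ed_ne_top x y)).2 hr
    obtain ⟨γ, g0, g1, hγ, hl, -, -⟩ :=
      exists_lt_locally_constant_of_riemannianEDist_lt hr' zero_lt_one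
    have hγ' : ContDiff ℝ 1 (fun t => (γ t).co) := contMDiff_iff_contDiff.1 hγ
    refine ⟨len fun t => (γ t).co, ⟨fun t => (γ t).co, hγ', congrArg co g0, congrArg co g1, rfl⟩,
      ?_⟩
    have e := pathELength_eq hγ'
    have hl' : ENNReal.ofReal (len fun t => (γ t).co) < ENNReal.ofReal r := e ▸ hl
    exact (ENNReal.ofReal_lt_ofReal_iff_of_nonneg (len_nonneg _)).1 hl'
  unfold d
  have hne : (lengths x y).Nonempty := by
    obtain ⟨l, hl, -⟩ := hup (dR x y + 1) (by linarith)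
    exact ⟨l, hl⟩
  apply le_antisymm
  · apply le_of_forall_gt_imp_ge_of_dense
    intro r hr
    obtain ⟨l, hl, hlr⟩ := hup r hr
    exact (csInf_le ⟨dR x y, hlow⟩ hl).trans hlr.le
  · exact le_csInf hne hlow

lemma mem_path (γ : ℝ → E) (t : ℝ) :
    A (- (of (γ t) : N).co 0)
      (mfderiv 𝓘(ℝ, ℝ) 𝓘(ℝ, E) (fun s => (of (γ s) : N)) t (1 : ℝ) : E) = vel γ t :=
  congrArg (fun w : E => A (- γ t 0) w) (mfderiv_one γ t)

lemma ccENorm_path_of_mem (γ : ℝ → E) (t : ℝ) (h : vel γ t ∈ strat 1) :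
    (ccENorm (of (γ t))).enorm
      (mfderiv 𝓘(ℝ, ℝ) 𝓘(ℝ, E) (fun s => (of (γ s) : N)) t (1 : ℝ)) =
      ENNReal.ofReal (sp γ t) := by
  rw [ccENorm_of_mem, enorm_path]
  rw [mem_path]
  exact h

lemma ccENorm_path_of_not_mem (γ : ℝ → E) (t : ℝ) (h : vel γ t ∉ strat 1) :
    (ccENorm (of (γ t))).enorm
      (mfderiv 𝓘(ℝ, ℝ) 𝓘(ℝ, E) (fun s => (of (γ s) : N)) t (1 : ℝ)) = ⊤ := by
  rw [ccENorm_of_not_mem]
  rw [mem_path]
  exact h

lemma ecc_le_len {γ : ℝ → E} (hγ : ContDiff ℝ 1 γ)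
    (hh : ∀ t ∈ Set.Icc (0 : ℝ) 1, vel γ t ∈ strat 1) (x y : N) (h0 : γ 0 = x.co)
    (h1 : γ 1 = y.co) : ecc x y ≤ ENNReal.ofReal (len γ) := by
  have hm : ContMDiff 𝓘(ℝ, ℝ) 𝓘(ℝ, E) 1 (fun s => (of (γ s) : N)) := hγ.contMDiff
  let := ccENorm
  have := ccSMul
  have h : ecc x y ≤ _ := riemannianEDist_le_pathELength (I := 𝓘(ℝ, E)) (a := 0) (b := 1)
      hm.contMDiffOn (ext' h0) (ext' h1) zero_le_one
  refine h.trans ?_
  rw [pathELength_eq_lintegral_mfderiv_Icc, ← lintegral_sp hγ]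
  exact setLIntegral_mono' measurableSet_Icc fun t ht => (ccENorm_path_of_mem γ t (hh t ht)).le

lemma isClosed_strat : IsClosed (strat 1 : Set E) := Submodule.closed_of_finiteDimensional _

lemma exists_horizontal (x y : N) (r : ℝ) (hr : ecc x y < ENNReal.ofReal r) :
    ∃ γ : ℝ → E, ContDiff ℝ 1 γ ∧ γ 0 = x.co ∧ γ 1 = y.co ∧
      (∀ t ∈ Set.Icc (0 : ℝ) 1, vel γ t ∈ strat 1) ∧ len γ < r := by
  obtain ⟨γ, g0, g1, hγ, hl, -, -⟩ := by
    let := ccENorm
    have := ccSMul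
    exact exists_lt_locally_constant_of_riemannianEDist_lt (I := 𝓘(ℝ, E)) (M := N) hr zero_lt_one
  have hγ' : ContDiff ℝ 1 (fun t => (γ t).co) := contMDiff_iff_contDiff.1 hγ
  set δ : ℝ → E := fun t => (γ t).co with hδ
  have hl2 : ∫⁻ t in Icc (0 : ℝ) 1, (ccENorm (of (δ t))).enorm
      (mfderiv 𝓘(ℝ, ℝ) 𝓘(ℝ, E) (fun s => (of (δ s) : N)) t (1 : ℝ)) < ENNReal.ofReal r := by
    let := ccENorm
    rw [pathELength_eq_lintegral_mfderiv_Icc] at hl
    exact hl
  have hvc := continuous_vel hγ'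
  set U : Set ℝ := {t | vel δ t ∉ strat 1} with hU
  have hUo : IsOpen U := isClosed_strat.isOpen_compl.preimage hvc
  have hU0 : volume (U ∩ Icc (0 : ℝ) 1) = 0 := by
    by_contra hne
    have h1 : ∫⁻ t in Icc (0 : ℝ) 1, U.indicator (fun _ => (⊤ : ℝ≥0∞)) t ≤
        ∫⁻ t in Icc (0 : ℝ) 1, (ccENorm (of (δ t))).enorm
          (mfderiv 𝓘(ℝ, ℝ) 𝓘(ℝ, E) (fun s => (of (δ s) : N)) t (1 : ℝ)) := by
      refine lintegral_mono fun t => ?_
      by_cases ht : t ∈ U
      · rw [Set.indicator_of_mem ht]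
        exact (ccENorm_path_of_not_mem δ t ht).ge
      · rw [Set.indicator_of_notMem ht]
        exact bot_le
    rw [lintegral_indicator hUo.measurableSet, lintegral_const, Measure.restrict_apply_univ,
      Measure.restrict_apply hUo.measurableSet, ENNReal.top_mul hne, top_le_iff] at h1
    rw [h1] at hl2
    exact absurd hl2 (by simp)
  have hIoo : ∀ t ∈ Ioo (0 : ℝ) 1, vel δ t ∈ strat 1 := by
    have h2 : volume (U ∩ Ioo (0 : ℝ) 1) = 0 :=
      measure_mono_null (inter_subset_inter_right _ Ioo_subset_Icc_self) hU0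
    have h3 := (hUo.inter isOpen_Ioo).measure_eq_zero_iff (μ := volume) |>.1 h2
    intro t ht
    by_contra hn
    have : t ∈ U ∩ Ioo (0 : ℝ) 1 := ⟨hn, ht⟩
    rw [h3] at this
    exact this
  have hIcc : ∀ t ∈ Icc (0 : ℝ) 1, vel δ t ∈ strat 1 := by
    have hcl : IsClosed {t | vel δ t ∈ strat 1} := isClosed_strat.preimage hvc
    have h4 : closure (Ioo (0 : ℝ) 1) ⊆ {t | vel δ t ∈ strat 1} :=
      closure_minimal (fun t ht => hIoo t ht) hcl
    rw [closure_Ioo zero_ne_one] at h4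
    exact fun t ht => h4 ht
  refine ⟨δ, hγ', congrArg co g0, congrArg co g1, hIcc, ?_⟩
  have h5 : ENNReal.ofReal (len δ) < ENNReal.ofReal r := by
    refine lt_of_le_of_lt ?_ hl2
    rw [← lintegral_sp hγ']
    exact setLIntegral_mono' measurableSet_Icc fun t ht => (ccENorm_path_of_mem δ t (hIcc t ht)).ge
  exact (ENNReal.ofReal_lt_ofReal_iff_of_nonneg (len_nonneg _)).1 h5

lemma dcc_eq (x y : N) : dcc x y = dC x y := by
  have hlow : ∀ l ∈ hlengths x y, dC x y ≤ l := by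
    rintro l ⟨γ, hγ, h0, h1, hh, rfl⟩
    have h := ecc_le_len hγ hh x y h0 h1
    have := ENNReal.toReal_mono ENNReal.ofReal_ne_top h
    rwa [ENNReal.toReal_ofReal (len_nonneg γ)] at this
  have hup : ∀ r, dC x y < r → ∃ l ∈ hlengths x y, l < r := by
    intro r hr
    have hr' : ecc x y < ENNReal.ofReal r :=
      (ENNReal.lt_ofReal_iff_toReal_lt (ecc_ne_top x y)).2 hr
    obtain ⟨γ, hγ, g0, g1, hh, hl⟩ := exists_horizontal x y r hr'
    exact ⟨len γ, ⟨γ, hγ, g0, g1, hh, rfl⟩, hl⟩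
  unfold dcc
  have hne : (hlengths x y).Nonempty := by
    obtain ⟨l, hl, -⟩ := hup (dC x y + 1) (by linarith)
    exact ⟨l, hl⟩
  apply le_antisymm
  · apply le_of_forall_gt_imp_ge_of_dense
    intro r hr
    obtain ⟨l, hl, hlr⟩ := hup r hr
    exact (csInf_le ⟨dC x y, hlow⟩ hl).trans hlr.le
  · exact le_csInf hne hlow

lemma hlengths_nonempty (x y : N) : (hlengths x y).Nonempty := by
  have hr' : ecc x y < ENNReal.ofReal (dC x y + 1) :=
      (ENNReal.lt_ofReal_iff_toReal_lt (ecc_ne_top x y)).2 (by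
        change dC x y < dC x y + 1
        linarith)
  obtain ⟨γ, hγ, g0, g1, hh, hl⟩ := exists_horizontal x y _ hr'
  exact ⟨len γ, γ, hγ, g0, g1, hh, rfl⟩

lemma ed_mul_left_le (g x y : N) : ed (g * x) (g * y) ≤ ed x y := by
  have h := riemannianEDist_map_le (I := 𝓘(ℝ, E)) (I' := 𝓘(ℝ, E)) (M := N) (M' := N)
    (fun z => g * z) (contMDiff_mul_leftN g) 1 one_ne_zero (by
      intro x v
      rw [ENNReal.coe_one, one_mul, ← ofReal_norm, ← ofReal_norm, norm_left]) x y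
  unfold ed
  simpa using h

lemma ed_mul_left (g x y : N) : ed (g * x) (g * y) = ed x y := by
  apply le_antisymm (ed_mul_left_le g x y)
  have := ed_mul_left_le g⁻¹ (g * x) (g * y)
  simpa using this

lemma d_mul_left (g x y : N) : d (g * x) (g * y) = d x y := by
  rw [d_eq, d_eq]
  unfold dR
  rw [ed_mul_left]

lemma dcc_mul_left (g x y : N) : dcc (g * x) (g * y) = dcc x y := by
  rw [dcc_eq, dcc_eq, dC_mul_left]

lemma dR_self (x : N) : dR x x = 0 := by
  unfold dR ed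
  rw [riemannianEDist_self]
  rfl

lemma dC_self (x : N) : dC x x = 0 := by
  unfold dC
  rw [ecc_self]
  rfl

lemma fderiv_mul_left (g : N) (y v : E) :
    fderiv ℝ (fun z : E => (g * of z).co) y v = A (g.co 0) v := by
  have h := (hasFDerivAt_mul_left g.co y).fderiv
  have h2 := congrArg (fun L => (L v : E)) h
  exact h2

end N

end Pool.Agent.H463R3.NilGroup
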